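import Pool.Agent.H988C.BotTop
import Pool.Agent.H31C.Defs

/-!
Bottom and top coefficients in the form of the interface `H31C`.
-/

namespace Pool.Agent.H988C

open Pool.Agent.H988R2.Perc Relation

theorem eqvGen_sub {α : Type*} {E F : α → α → Prop} (key : ∀ x y, E x y → EqvGen F x y) {x y : α}
    (h : EqvGen E x y) : EqvGen F x y := by
  induction h with
  | rel x y h => exact key x y h
  | refl x => exact EqvGen.refl _
  | symm x y _ ih => exact ih.symm
  | trans x y z _ _ i1 i2 => exact i1.trans _ _ _ i2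

theorem conn3_iff (a b : ℕ) (ha : Odd a) (R R1 R2 : St)
    (h1 : ∀ x y, R1.rel x y → x = y ∨ (x ≤ a ∧ y ≤ a)) :
    H31C.conn3 a b R R1 R2 ↔ gconn a (a+b+1) R (glue a ha R1 R2) := by
  unfold gconn H31C.conn3
  constructor
  · refine eqvGen_sub ?_
    rintro x y (h | h | ⟨x', y', rfl, rfl, h⟩)
    · exact EqvGen.rel _ _ (Or.inl h)
    · rcases h1 x y h with k | ⟨k1, k2⟩
      · subst k; exact EqvGen.refl _
      · exact EqvGen.rel _ _ (Or.inr (Or.inr (Or.inl ⟨k1, k2, h⟩)))
    · refine EqvGen.rel _ _ (Or.inr (Or.inr (Or.inr ⟨by omega, by omega, ?_⟩)))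
      have e1 : a + 1 + x' - (a + 1) = x' := by omega
      have e2 : a + 1 + y' - (a + 1) = y' := by omega
      rw [e1, e2]; exact h
  · refine fun h => eqvGen_sub ?_ h
    rintro x y (h | h | ⟨k1, k2, h⟩ | ⟨k1, k2, h⟩)
    · exact EqvGen.rel _ _ (Or.inl h)
    · subst h; exact EqvGen.refl _
    · exact EqvGen.rel _ _ (Or.inr (Or.inl h))
    · exact EqvGen.rel _ _ (Or.inr (Or.inr ⟨x - (a+1), y - (a+1), by omega, by omega, h⟩))

theorem tri_eq (a b : ℕ) (ha : Odd a) (f g h : St →₀ ℂ)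
    (h1 : ∀ R ∈ g.support, ∀ x y, R.rel x y → x = y ∨ (x ≤ a ∧ y ≤ a)) :
    H31C.tri a b f g h = tri a b ha f g h := by
  classical
  unfold tri H31C.tri
  refine Finsupp.sum_congr fun R _ => Finsupp.sum_congr fun R1 hR1 => Finsupp.sum_congr fun R2 _ => ?_
  have := conn3_iff a b ha R R1 R2 (h1 R1 hR1)
  by_cases hc : gconn a (a+b+1) R (glue a ha R1 R2)
  · rw [if_pos hc, if_pos (this.2 hc)]
  · rw [if_neg hc, if_neg (fun h => hc (this.1 h))]

theorem GR31_eq (a b : ℕ) (ha : Odd a) (A B : List ℂ) (hA : A.length = a) (hB : B.length = b)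
    (w : ℂ) : H31C.GR A w B =
      tri a b ha (Psi (A ++ w :: (B ++ [0]))) (Psi (H31C.inv A ++ [0])) (Psi (H31C.inv B ++ [0])) := by
  subst hA hB
  unfold H31C.GR
  apply tri_eq
  intro R hR x y hxy
  have hlen : (H31C.inv A ++ [0]).length = A.length + 1 := by simp [H31C.inv]
  have := Psi_supp (H31C.inv A ++ [0]) (by rw [hlen]; exact ha.add_one) R hR x y hxy
  rw [hlen] at this
  rcases this with k | ⟨k1, k2⟩
  · exact Or.inl k
  · exact Or.inr ⟨by omega, by omega⟩

/-- bottom coefficient, general parameters -/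
theorem GR31_bottom (A B : List ℂ) (ha : Odd A.length) (hb : Odd B.length) (hB : ∀ y ∈ B, y ≠ 0) :
    H31C.GR A 0 B = -q^2 * H31C.TT A 0 B := by
  rw [GR31_eq A.length B.length ha A B rfl rfl 0,
    tri_bottom hb A B (H31C.inv B ++ [0]) rfl rfl (by simp [H31C.inv]) hB]
  rfl

open Polynomial in
/-- top coefficient, general parameters -/
theorem GR31_top (A B : List ℂ) (ha : Odd A.length) (hb : Odd B.length) (p t : ℂ[X])
    (hp : p.natDegree ≤ A.length + B.length) (ht : t.natDegree ≤ A.length + B.length)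
    (hpe : ∀ W, H31C.GR A W B = p.eval W) (hte : ∀ W, H31C.TT A W B = t.eval W) :
    p.coeff (A.length + B.length) = -q * t.coeff (A.length + B.length) := by
  refine tri_top (ha := ha) hb A B (H31C.inv B ++ [0]) rfl rfl (by simp [H31C.inv])
    (Psi (H31C.inv A ++ [0])) p t hp ht (fun W => ?_) (fun W => ?_)
  · rw [← hpe W, GR31_eq A.length B.length ha A B rfl rfl W]
  · rw [← hte W]; rfl

theorem GR31_on_bottom (a b : ℕ) (ha : Odd a) (hb : Odd b) :
    H31C.GR (H31C.on a) 0 (H31C.on b) = -q^2 * H31C.TT (H31C.on a) 0 (H31C.on b) :=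
  GR31_bottom _ _ (by simpa [H31C.on] using ha) (by simpa [H31C.on] using hb)
    (fun y hy => by rw [List.eq_of_mem_replicate hy]; exact one_ne_zero)

open Polynomial in
theorem GR31_on_top (a b : ℕ) (ha : Odd a) (hb : Odd b) (p t : ℂ[X])
    (hp : p.natDegree ≤ a + b) (ht : t.natDegree ≤ a + b)
    (hpe : ∀ W, H31C.GR (H31C.on a) W (H31C.on b) = p.eval W)
    (hte : ∀ W, H31C.TT (H31C.on a) W (H31C.on b) = t.eval W) :
    p.coeff (a + b) = -q * t.coeff (a + b) := by
  have hla : (H31C.on a).length = a := by simp [H31C.on]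
  have hlb : (H31C.on b).length = b := by simp [H31C.on]
  have := GR31_top (H31C.on a) (H31C.on b) (by rw [hla]; exact ha) (by rw [hlb]; exact hb) p t
    (by rw [hla, hlb]; exact hp) (by rw [hla, hlb]; exact ht) hpe hte
  rwa [hla, hlb] at this

end Pool.Agent.H988C
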