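import Pool.Agent.H988R2.Perc.Defs

/-!
Definitions for the slit strip (exact discrete Cardy formula).
-/

namespace Pool.Agent.H988C

open Pool.Agent.H988R2.Perc

/-- disjoint union of the state `R1` on the faces `≤ a` and the state `R2` shifted by `a+1`
(`a` odd). -/
def glue (a : ℕ) (ha : Odd a) (R1 R2 : St) : St where
  rel x y := x = y ∨ (x ≤ a ∧ y ≤ a ∧ R1.rel x y) ∨
    (a < x ∧ a < y ∧ R2.rel (x - (a+1)) (y - (a+1)))
  eqv := by
    obtain ⟨hr, hs, ht⟩ := R1.eqv
    obtain ⟨kr, ks, kt⟩ := R2.eqv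
    refine ⟨fun _ => Or.inl rfl, ?_, ?_⟩
    · rintro x y (h | ⟨h1, h2, h3⟩ | ⟨h1, h2, h3⟩)
      · exact Or.inl h.symm
      · exact Or.inr (Or.inl ⟨h2, h1, hs h3⟩)
      · exact Or.inr (Or.inr ⟨h2, h1, ks h3⟩)
    · rintro x y z (h | ⟨h1, h2, h3⟩ | ⟨h1, h2, h3⟩) (k | ⟨k1, k2, k3⟩ | ⟨k1, k2, k3⟩)
      · exact Or.inl (h.trans k)
      · subst h; exact Or.inr (Or.inl ⟨k1, k2, k3⟩)
      · subst h; exact Or.inr (Or.inr ⟨k1, k2, k3⟩)
      · subst k; exact Or.inr (Or.inl ⟨h1, h2, h3⟩)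
      · exact Or.inr (Or.inl ⟨h1, k2, ht h3 k3⟩)
      · omega
      · subst k; exact Or.inr (Or.inr ⟨h1, h2, h3⟩)
      · omega
      · exact Or.inr (Or.inr ⟨h1, k2, kt h3 k3⟩)
  odd := by
    obtain ⟨c, hc⟩ := ha
    rintro x y (h | ⟨h1, h2, h3⟩ | ⟨h1, h2, h3⟩)
    · exact Or.inl h
    · exact R1.odd x y h3
    · rcases R2.odd _ _ h3 with h | ⟨h, h'⟩
      · left; omega
      · right; omega

/-- the faces `s` and `t` are joined in the join of `R` and `R'` -/
def gconn (s t : ℕ) (R R' : St) : Prop :=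
  Relation.EqvGen (fun a b => R.rel a b ∨ R'.rel a b) s t

open Classical in
/-- the trilinear functional of the slit strip: `f` = lower state (width `L = a+b+1`), `g` = upper
left state (width `a`), `h` = upper right state (width `b`, shifted by `a+1`); the value is the
weight of the event that the faces `a` (the wired side of the slit) and `L` (the wired right wall)
are joined. -/
noncomputable def tri (a b : ℕ) (ha : Odd a) (f g h : St →₀ ℂ) : ℂ :=
  f.sum fun R x => g.sum fun R1 y => h.sum fun R2 z =>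
    x * y * z * (if gconn a (a+b+1) R (glue a ha R1 R2) then 1 else 0)

/-- homogeneous ground state of width `N` -/
noncomputable def Psi1 (N : ℕ) : St →₀ ℂ := Psi (List.replicate N 1 ++ [0])

/-- the inhomogeneous functional `G_right(A; w; B)` (upper parameters inverted; `|A| = a`) -/
noncomputable def GR (A : List ℂ) (ha : Odd A.length) (w : ℂ) (B : List ℂ) : ℂ :=
  tri A.length B.length ha (Psi (A ++ w :: B ++ [0])) (Psi (A.map (·⁻¹) ++ [0]))
    (Psi (B.map (·⁻¹) ++ [0]))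

/-! ## the slit strip on `ℤ²` -/

/-- state of the window of the upper right half strip -/
def oFutR (ω : Conf) (a M : ℕ) (k i : ℕ) : Bool := oFut ω M k (i + (a+1))

/-- the window event -/
def SWin (a b : ℕ) (ha : Odd a) (M : ℕ) : Set Conf :=
  {ω | gconn a (a+b+1) (X (a+b+1) (actBit (oPast ω M)) M)
    (glue a ha (X a (actBit (oFut ω M)) M) (X b (actBit (oFutR ω a M)) M))}

/-- `x` and `y` are the two ends of an open edge `e` of the slit strip: the strip is
`0 ≤ u - v ≤ a+b+1`; the slit removes the edges between the columns `u - v = a` and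
`u - v = a+1` which lie above: those between the points with `u + v ≥ 1`. -/
def SlitOK (a b : ℕ) (x y : ℤ × ℤ) : Prop :=
  (0 ≤ x.1 - x.2 ∧ x.1 - x.2 ≤ a+b+1) ∧ (0 ≤ y.1 - y.2 ∧ y.1 - y.2 ≤ a+b+1) ∧
  ¬ (1 ≤ x.1 + x.2 ∧ 1 ≤ y.1 + y.2 ∧
    ((x.1 - x.2 ≤ a ∧ a + 1 ≤ y.1 - y.2) ∨ (y.1 - y.2 ≤ a ∧ a + 1 ≤ x.1 - x.2)))

/-- the crossing event of the slit strip: a point of the left side of the slit (`u - v = a`,
`u + v ≥ 1`) is joined to a point of the right wall (`u - v = a+b+1`) by an open path of the slit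
strip -/
def SCross (a b : ℕ) : Set Conf :=
  {ω | ∃ x y : ℤ × ℤ, x.1 - x.2 = a ∧ 1 ≤ x.1 + x.2 ∧ y.1 - y.2 = a+b+1 ∧
    Relation.ReflTransGen (fun x y => OpenAdj ω x y ∧ SlitOK a b x y) x y}

end Pool.Agent.H988C
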