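import Pool.Agent.H988C.Defs
import Pool.Agent.H988R2.Perc.T17

/-!
Adjointness lemmas for the gluing functional `tri` of the slit strip.
-/

namespace Pool.Agent.H988C

open Pool.Agent.H988R2.Perc

/-! ### gconn -/

theorem gconn_comm (s t : ℕ) (R R' : St) : gconn s t R R' ↔ gconn s t R' R := by
  unfold gconn
  have : (fun a b => R.rel a b ∨ R'.rel a b) = (fun a b => R'.rel a b ∨ R.rel a b) := by
    funext a b; exact propext or_comm
  rw [this]

theorem gconn_act {s t i : ℕ} (hs : s ≠ i + 1) (ht : t ≠ i + 1) (R R' : St) :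
    gconn s t (St.act i R) R' ↔ gconn s t R (St.act i R') := by
  rw [gconn_comm s t R]
  unfold gconn
  rw [t17_key R R' s t hs ht, t17_key R' R s t hs ht]
  have : (fun a b => (St.act i R).rel a b ∨ (St.act i R').rel a b) =
      (fun a b => (St.act i R').rel a b ∨ (St.act i R).rel a b) := by
    funext a b; exact propext or_comm
  rw [this]

theorem gconn_act_act {s t i : ℕ} (hs : s ≠ i + 1) (ht : t ≠ i + 1) (R R' : St) :
    gconn s t (St.act i R) R' ↔ gconn s t (St.act i R) (St.act i R') := by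
  unfold gconn
  exact t17_key R R' s t hs ht

theorem up_ne (i x : ℕ) : St.up i x ≠ i + 1 := by
  unfold St.up; split_ifs <;> omega

theorem gconn_ins_ins (s t i : ℕ) (R R' : St) :
    gconn (St.up i s) (St.up i t) (St.ins i R) (St.ins i R') ↔ gconn s t R R' := by
  unfold gconn
  have hlow : ∀ (S : St) (a b : ℕ), (St.ins i S).rel a b → S.rel (St.low i a) (St.low i b) := by
    rintro S a b (h | ⟨_, _, _, _, h⟩)
    · subst h; exact S.eqv.1 _
    · exact h
  have hup : ∀ (S : St) (a b : ℕ), S.rel a b → (St.ins i S).rel (St.up i a) (St.up i b) := by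
    intro S a b h
    rcases S.odd _ _ h with h' | ⟨h1, h2⟩
    · left; rw [h']
    · right
      refine ⟨?_, ?_, up_ne i a, up_ne i b, ?_⟩
      · unfold St.up; split_ifs <;> omega
      · unfold St.up; split_ifs <;> omega
      · rw [St.low_up, St.low_up]; exact h
  constructor
  · intro h
    have : ∀ a b : ℕ, Relation.EqvGen (fun a b => (St.ins i R).rel a b ∨ (St.ins i R').rel a b) a b →
        Relation.EqvGen (fun a b => R.rel a b ∨ R'.rel a b) (St.low i a) (St.low i b) := by
      intro a b h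
      induction h with
      | rel x y h =>
        rcases h with h | h
        · exact Relation.EqvGen.rel _ _ (Or.inl (hlow R _ _ h))
        · exact Relation.EqvGen.rel _ _ (Or.inr (hlow R' _ _ h))
      | refl x => exact Relation.EqvGen.refl _
      | symm x y _ ih => exact Relation.EqvGen.symm _ _ ih
      | trans x y z _ _ ih1 ih2 => exact Relation.EqvGen.trans _ _ _ ih1 ih2
    have h2 := this _ _ h
    rw [St.low_up, St.low_up] at h2
    exact h2
  · intro h
    have : ∀ a b : ℕ, Relation.EqvGen (fun a b => R.rel a b ∨ R'.rel a b) a b →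
        Relation.EqvGen (fun a b => (St.ins i R).rel a b ∨ (St.ins i R').rel a b)
          (St.up i a) (St.up i b) := by
      intro a b h
      induction h with
      | rel x y h =>
        rcases h with h | h
        · exact Relation.EqvGen.rel _ _ (Or.inl (hup R _ _ h))
        · exact Relation.EqvGen.rel _ _ (Or.inr (hup R' _ _ h))
      | refl x => exact Relation.EqvGen.refl _
      | symm x y _ ih => exact Relation.EqvGen.symm _ _ ih
      | trans x y z _ _ ih1 ih2 => exact Relation.EqvGen.trans _ _ _ ih1 ih2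
    exact this _ _ h

theorem gconn_ins_left (s t i : ℕ) (R R' : St) :
    gconn (St.up i s) (St.up i t) (St.ins i R) R' ↔ gconn s t R (St.cap i R') := by
  have h1 : St.ins i R = St.act i (St.ins i R) := (St.act_ins_self i R).symm
  rw [h1, gconn_act_act (up_ne i s) (up_ne i t), ← h1, St.act_eq i R', gconn_ins_ins]

theorem gconn_ins_right (s t i : ℕ) (R R' : St) :
    gconn (St.up i s) (St.up i t) R (St.ins i R') ↔ gconn s t (St.cap i R) R' := by
  rw [gconn_comm, gconn_ins_left, gconn_comm]

/-! ### glue -/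

theorem act_glue_left {a i : ℕ} (ha : Odd a) (hi : i + 2 ≤ a) (R1 R2 : St) :
    St.act i (glue a ha R1 R2) = glue a ha (St.act i R1) R2 := by
  apply St.ext'
  intro x y
  have ho2 := R2.odd (x - (a+1)) (y - (a+1))
  obtain ⟨c, hc⟩ := ha
  constructor
  · rintro (h | ⟨h1, h2, h3, h4, (h | ⟨h, h'⟩ | ⟨h, h'⟩)⟩)
    · exact Or.inl h
    · rcases h with h | ⟨k1, k2, k3⟩ | ⟨k1, k2, k3⟩
      · exact Or.inl h
      · exact Or.inr (Or.inl ⟨k1, k2, Or.inr ⟨h1, h2, h3, h4, Or.inl k3⟩⟩)
      · exact Or.inr (Or.inr ⟨k1, k2, k3⟩)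
    · rcases h with h | ⟨k1, k2, k3⟩ | ⟨k1, k2, k3⟩
      · rcases h' with h' | ⟨l1, l2, l3⟩ | ⟨l1, l2, l3⟩
        · subst h; subst h'
          exact Or.inr (Or.inl ⟨by omega, by omega, Or.inr ⟨h1, h2, h3, h4,
            Or.inr (Or.inl ⟨R1.eqv.1 _, R1.eqv.1 _⟩)⟩⟩)
        · subst h
          exact Or.inr (Or.inl ⟨by omega, by omega, Or.inr ⟨h1, h2, h3, h4,
            Or.inr (Or.inl ⟨R1.eqv.1 _, l3⟩)⟩⟩)
        · omega
      · rcases h' with h' | ⟨l1, l2, l3⟩ | ⟨l1, l2, l3⟩
        · subst h'
          exact Or.inr (Or.inl ⟨by omega, by omega, Or.inr ⟨h1, h2, h3, h4,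
            Or.inr (Or.inl ⟨k3, R1.eqv.1 _⟩)⟩⟩)
        · exact Or.inr (Or.inl ⟨by omega, by omega, Or.inr ⟨h1, h2, h3, h4,
            Or.inr (Or.inl ⟨k3, l3⟩)⟩⟩)
        · omega
      · omega
    · rcases h with h | ⟨k1, k2, k3⟩ | ⟨k1, k2, k3⟩
      · rcases h' with h' | ⟨l1, l2, l3⟩ | ⟨l1, l2, l3⟩
        · subst h; subst h'
          exact Or.inr (Or.inl ⟨by omega, by omega, Or.inr ⟨h1, h2, h3, h4,
            Or.inr (Or.inr ⟨R1.eqv.1 _, R1.eqv.1 _⟩)⟩⟩)
        · subst h
          exact Or.inr (Or.inl ⟨by omega, by omega, Or.inr ⟨h1, h2, h3, h4,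
            Or.inr (Or.inr ⟨R1.eqv.1 _, l3⟩)⟩⟩)
        · omega
      · rcases h' with h' | ⟨l1, l2, l3⟩ | ⟨l1, l2, l3⟩
        · subst h'
          exact Or.inr (Or.inl ⟨by omega, by omega, Or.inr ⟨h1, h2, h3, h4,
            Or.inr (Or.inr ⟨k3, R1.eqv.1 _⟩)⟩⟩)
        · exact Or.inr (Or.inl ⟨by omega, by omega, Or.inr ⟨h1, h2, h3, h4,
            Or.inr (Or.inr ⟨k3, l3⟩)⟩⟩)
        · omega
      · omega
  · rintro (h | ⟨k1, k2, (h | ⟨h1, h2, h3, h4, (h | ⟨h, h'⟩ | ⟨h, h'⟩)⟩)⟩ | ⟨k1, k2, k3⟩)
    · exact Or.inl h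
    · exact Or.inl h
    · exact Or.inr ⟨h1, h2, h3, h4, Or.inl (Or.inr (Or.inl ⟨k1, k2, h⟩))⟩
    · exact Or.inr ⟨h1, h2, h3, h4, Or.inr (Or.inl ⟨Or.inr (Or.inl ⟨k1, by omega, h⟩),
        Or.inr (Or.inl ⟨by omega, k2, h'⟩)⟩)⟩
    · exact Or.inr ⟨h1, h2, h3, h4, Or.inr (Or.inr ⟨Or.inr (Or.inl ⟨k1, by omega, h⟩),
        Or.inr (Or.inl ⟨by omega, k2, h'⟩)⟩)⟩
    · rcases ho2 k3 with h | ⟨h, h'⟩
      · left; omega
      · exact Or.inr ⟨by omega, by omega, by omega, by omega, Or.inl (Or.inr (Or.inr ⟨k1, k2, k3⟩))⟩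

theorem act_glue_right {a i : ℕ} (ha : Odd a) (R1 R2 : St) :
    St.act (i + (a+1)) (glue a ha R1 R2) = glue a ha R1 (St.act i R2) := by
  apply St.ext'
  intro x y
  have ho1 := R1.odd x y
  have ei : i + (a+1) - (a+1) = i := by omega
  have ei2 : i + (a+1) + 2 - (a+1) = i + 2 := by omega
  obtain ⟨c, hc⟩ := ha
  constructor
  · rintro (h | ⟨h1, h2, h3, h4, (h | ⟨h, h'⟩ | ⟨h, h'⟩)⟩)
    · exact Or.inl h
    · rcases h with h | ⟨k1, k2, k3⟩ | ⟨k1, k2, k3⟩
      · exact Or.inl h
      · exact Or.inr (Or.inl ⟨k1, k2, k3⟩)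
      · exact Or.inr (Or.inr ⟨k1, k2, Or.inr ⟨by omega, by omega, by omega, by omega, Or.inl k3⟩⟩)
    · rcases h with h | ⟨k1, k2, k3⟩ | ⟨k1, k2, k3⟩
      · rcases h' with h' | ⟨l1, l2, l3⟩ | ⟨l1, l2, l3⟩
        · subst h; subst h'
          refine Or.inr (Or.inr ⟨by omega, by omega, Or.inr ⟨by omega, by omega, by omega,
            by omega, Or.inr (Or.inl ⟨?_, ?_⟩)⟩⟩)
          · rw [ei]; exact R2.eqv.1 _
          · rw [ei2]; exact R2.eqv.1 _
        · omega
        · subst h
          rw [ei2] at l3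
          refine Or.inr (Or.inr ⟨by omega, by omega, Or.inr ⟨by omega, by omega, by omega,
            by omega, Or.inr (Or.inl ⟨?_, l3⟩)⟩⟩)
          rw [ei]; exact R2.eqv.1 _
      · omega
      · rcases h' with h' | ⟨l1, l2, l3⟩ | ⟨l1, l2, l3⟩
        · subst h'
          rw [ei] at k3
          refine Or.inr (Or.inr ⟨by omega, by omega, Or.inr ⟨by omega, by omega, by omega,
            by omega, Or.inr (Or.inl ⟨k3, ?_⟩)⟩⟩)
          rw [ei2]; exact R2.eqv.1 _
        · omega
        · rw [ei] at k3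
          rw [ei2] at l3
          exact Or.inr (Or.inr ⟨by omega, by omega, Or.inr ⟨by omega, by omega, by omega,
            by omega, Or.inr (Or.inl ⟨k3, l3⟩)⟩⟩)
    · rcases h with h | ⟨k1, k2, k3⟩ | ⟨k1, k2, k3⟩
      · rcases h' with h' | ⟨l1, l2, l3⟩ | ⟨l1, l2, l3⟩
        · subst h; subst h'
          refine Or.inr (Or.inr ⟨by omega, by omega, Or.inr ⟨by omega, by omega, by omega,
            by omega, Or.inr (Or.inr ⟨?_, ?_⟩)⟩⟩)
          · rw [ei2]; exact R2.eqv.1 _
          · rw [ei]; exact R2.eqv.1 _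
        · omega
        · subst h
          rw [ei] at l3
          refine Or.inr (Or.inr ⟨by omega, by omega, Or.inr ⟨by omega, by omega, by omega,
            by omega, Or.inr (Or.inr ⟨?_, l3⟩)⟩⟩)
          rw [ei2]; exact R2.eqv.1 _
      · omega
      · rcases h' with h' | ⟨l1, l2, l3⟩ | ⟨l1, l2, l3⟩
        · subst h'
          rw [ei2] at k3
          refine Or.inr (Or.inr ⟨by omega, by omega, Or.inr ⟨by omega, by omega, by omega,
            by omega, Or.inr (Or.inr ⟨k3, ?_⟩)⟩⟩)
          rw [ei]; exact R2.eqv.1 _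
        · omega
        · rw [ei2] at k3
          rw [ei] at l3
          exact Or.inr (Or.inr ⟨by omega, by omega, Or.inr ⟨by omega, by omega, by omega,
            by omega, Or.inr (Or.inr ⟨k3, l3⟩)⟩⟩)
  · rintro (h | ⟨k1, k2, k3⟩ | ⟨k1, k2, (h | ⟨h1, h2, h3, h4, (h | ⟨h, h'⟩ | ⟨h, h'⟩)⟩)⟩)
    · exact Or.inl h
    · rcases ho1 k3 with h | ⟨h, h'⟩
      · exact Or.inl h
      · exact Or.inr ⟨h, h', by omega, by omega, Or.inl (Or.inr (Or.inl ⟨k1, k2, k3⟩))⟩
    · left; omega
    · exact Or.inr ⟨by omega, by omega, by omega, by omega,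
        Or.inl (Or.inr (Or.inr ⟨k1, k2, h⟩))⟩
    · exact Or.inr ⟨by omega, by omega, by omega, by omega,
        Or.inr (Or.inl ⟨Or.inr (Or.inr ⟨k1, by omega, by rw [ei]; exact h⟩),
          Or.inr (Or.inr ⟨by omega, k2, by rw [ei2]; exact h'⟩)⟩)⟩
    · exact Or.inr ⟨by omega, by omega, by omega, by omega,
        Or.inr (Or.inr ⟨Or.inr (Or.inr ⟨k1, by omega, by rw [ei2]; exact h⟩),
          Or.inr (Or.inr ⟨by omega, k2, by rw [ei]; exact h'⟩)⟩)⟩

theorem ins_glue_left {a i : ℕ} (ha : Odd a) (ha' : Odd (a+2)) (hi : i ≤ a) (R1 R2 : St) :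
    St.ins i (glue a ha R1 R2) = glue (a+2) ha' (St.ins i R1) R2 := by
  apply St.ext'
  intro x y
  obtain ⟨c, hc⟩ := ha
  have ho := R2.odd (x - (a+2+1)) (y - (a+2+1))
  constructor
  · rintro (h | ⟨h1, h2, h3, h4, h | ⟨k1, k2, k3⟩ | ⟨k1, k2, k3⟩⟩)
    · exact Or.inl h
    · by_cases hx : x ≤ a + 2
      · by_cases hy : y ≤ a + 2
        · refine Or.inr (Or.inl ⟨hx, hy, Or.inr ⟨h1, h2, h3, h4, ?_⟩⟩)
          rw [h]; exact R1.eqv.1 _
        · exfalso; unfold St.low at h; split_ifs at h <;> omega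
      · left
        unfold St.low at h; split_ifs at h <;> omega
    · refine Or.inr (Or.inl ⟨?_, ?_, Or.inr ⟨h1, h2, h3, h4, k3⟩⟩)
      · unfold St.low at k1; split_ifs at k1 <;> omega
      · unfold St.low at k2; split_ifs at k2 <;> omega
    · have ex : St.low i x = x - 2 := by unfold St.low at k1 ⊢; split_ifs at k1 ⊢ <;> omega
      have ey : St.low i y = y - 2 := by unfold St.low at k2 ⊢; split_ifs at k2 ⊢ <;> omega
      rw [ex] at k1 k3
      rw [ey] at k2 k3
      refine Or.inr (Or.inr ⟨by omega, by omega, ?_⟩)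
      have e1 : x - (a+2+1) = x - 2 - (a+1) := by omega
      have e2 : y - (a+2+1) = y - 2 - (a+1) := by omega
      rw [e1, e2]; exact k3
  · rintro (h | ⟨k1, k2, h | ⟨h1, h2, h3, h4, h⟩⟩ | ⟨k1, k2, k3⟩)
    · exact Or.inl h
    · exact Or.inl h
    · refine Or.inr ⟨h1, h2, h3, h4, Or.inr (Or.inl ⟨?_, ?_, h⟩)⟩
      · unfold St.low; split_ifs <;> omega
      · unfold St.low; split_ifs <;> omega
    · rcases ho k3 with h | ⟨h, h'⟩
      · left; omega
      · have ex : St.low i x = x - 2 := by unfold St.low; split_ifs <;> omega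
        have ey : St.low i y = y - 2 := by unfold St.low; split_ifs <;> omega
        refine Or.inr ⟨by omega, by omega, by omega, by omega, Or.inr (Or.inr ?_)⟩
        rw [ex, ey]
        refine ⟨by omega, by omega, ?_⟩
        have e1 : x - (a+2+1) = x - 2 - (a+1) := by omega
        have e2 : y - (a+2+1) = y - 2 - (a+1) := by omega
        rw [← e1, ← e2]; exact k3

theorem ins_glue_right {a i : ℕ} (ha : Odd a) (R1 R2 : St) :
    St.ins (i + (a+1)) (glue a ha R1 R2) = glue a ha R1 (St.ins i R2) := by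
  apply St.ext'
  intro x y
  obtain ⟨c, hc⟩ := ha
  have ho := R1.odd x y
  constructor
  · rintro (h | ⟨h1, h2, h3, h4, h | ⟨k1, k2, k3⟩ | ⟨k1, k2, k3⟩⟩)
    · exact Or.inl h
    · by_cases hx : x ≤ a
      · left; unfold St.low at h; split_ifs at h <;> omega
      · have hy : a < y := by unfold St.low at h; split_ifs at h <;> omega
        refine Or.inr (Or.inr ⟨by omega, hy, Or.inr ⟨by omega, by omega, by omega, by omega, ?_⟩⟩)
        have : St.low i (x - (a+1)) = St.low i (y - (a+1)) := by
          unfold St.low at h ⊢; split_ifs at h ⊢ <;> omega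
        rw [this]; exact R2.eqv.1 _
    · have ex : St.low (i + (a+1)) x = x := by unfold St.low at k1 ⊢; split_ifs at k1 ⊢ <;> omega
      have ey : St.low (i + (a+1)) y = y := by unfold St.low at k2 ⊢; split_ifs at k2 ⊢ <;> omega
      rw [ex] at k1 k3
      rw [ey] at k2 k3
      exact Or.inr (Or.inl ⟨k1, k2, k3⟩)
    · have ex : St.low (i + (a+1)) x - (a+1) = St.low i (x - (a+1)) := by
        unfold St.low; split_ifs <;> omega
      have ey : St.low (i + (a+1)) y - (a+1) = St.low i (y - (a+1)) := by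
        unfold St.low; split_ifs <;> omega
      rw [ex, ey] at k3
      have hx : a < x := by unfold St.low at k1; split_ifs at k1 <;> omega
      have hy : a < y := by unfold St.low at k2; split_ifs at k2 <;> omega
      exact Or.inr (Or.inr ⟨hx, hy, Or.inr ⟨by omega, by omega, by omega, by omega, k3⟩⟩)
  · rintro (h | ⟨k1, k2, k3⟩ | ⟨k1, k2, h | ⟨h1, h2, h3, h4, h⟩⟩)
    · exact Or.inl h
    · rcases ho k3 with h | ⟨h, h'⟩
      · left; omega
      · have ex : St.low (i + (a+1)) x = x := by unfold St.low; split_ifs <;> omega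
        have ey : St.low (i + (a+1)) y = y := by unfold St.low; split_ifs <;> omega
        refine Or.inr ⟨by omega, by omega, by omega, by omega, Or.inr (Or.inl ?_)⟩
        rw [ex, ey]; exact ⟨k1, k2, k3⟩
    · left; omega
    · have ex : St.low (i + (a+1)) x - (a+1) = St.low i (x - (a+1)) := by
        unfold St.low; split_ifs <;> omega
      have ey : St.low (i + (a+1)) y - (a+1) = St.low i (y - (a+1)) := by
        unfold St.low; split_ifs <;> omega
      refine Or.inr ⟨by omega, by omega, by omega, by omega, Or.inr (Or.inr ⟨?_, ?_, ?_⟩)⟩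
      · unfold St.low; split_ifs <;> omega
      · unfold St.low; split_ifs <;> omega
      · rw [ex, ey]; exact h

theorem cap_glue_left {a i : ℕ} (ha : Odd a) (ha' : Odd (a+2)) (hi : i ≤ a) (R1 R2 : St) :
    St.cap i (glue (a+2) ha' R1 R2) = glue a ha (St.cap i R1) R2 := by
  apply St.ins_inj i
  rw [← St.act_eq, ins_glue_left ha ha' hi, ← St.act_eq, act_glue_left ha' (by omega)]

theorem cap_glue_right {a i : ℕ} (ha : Odd a) (R1 R2 : St) :
    St.cap (i + (a+1)) (glue a ha R1 R2) = glue a ha R1 (St.cap i R2) := by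
  apply St.ins_inj (i + (a+1))
  rw [← St.act_eq, ins_glue_right ha, ← St.act_eq, act_glue_right ha]

/-! ### tri -/

section Tri

variable {a b : ℕ} {ha : Odd a}

open Classical in
theorem tri_def (f g h : St →₀ ℂ) : tri a b ha f g h = f.sum fun R x => g.sum fun R1 y =>
    h.sum fun R2 z => x * y * z * (if gconn a (a+b+1) R (glue a ha R1 R2) then 1 else 0) := rfl

/-- the trilinear functional as an iterated linear combination -/
theorem tri_lin (f g h : St →₀ ℂ) : tri a b ha f g h =
    Finsupp.linearCombination ℂ (fun R => Finsupp.linearCombination ℂ (fun R1 =>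
      Finsupp.linearCombination ℂ (fun R2 => tri a b ha (Finsupp.single R 1) (Finsupp.single R1 1)
        (Finsupp.single R2 1)) h) g) f := by
  classical
  have e : ∀ R R1 R2 : St, tri a b ha (Finsupp.single R 1) (Finsupp.single R1 1)
      (Finsupp.single R2 1) = if gconn a (a+b+1) R (glue a ha R1 R2) then 1 else 0 := by
    intro R R1 R2
    rw [tri_def, Finsupp.sum_single_index, Finsupp.sum_single_index, Finsupp.sum_single_index]
    · ring
    · ring
    · rw [Finsupp.sum_single_index] <;> ring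
    · rw [Finsupp.sum_single_index]
      · rw [Finsupp.sum_single_index] <;> ring
      · rw [Finsupp.sum_single_index] <;> ring
  simp only [e]
  rw [tri_def, Finsupp.linearCombination_apply]
  refine Finsupp.sum_congr (fun R _ => ?_)
  rw [Finsupp.linearCombination_apply, smul_eq_mul, Finsupp.mul_sum]
  refine Finsupp.sum_congr (fun R1 _ => ?_)
  rw [Finsupp.linearCombination_apply, smul_eq_mul, Finsupp.mul_sum, Finsupp.mul_sum]
  refine Finsupp.sum_congr (fun R2 _ => ?_)
  simp only [smul_eq_mul]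
  ring

theorem tri_single (R R1 R2 : St) [Decidable (gconn a (a+b+1) R (glue a ha R1 R2))] :
    tri a b ha (Finsupp.single R 1) (Finsupp.single R1 1)
      (Finsupp.single R2 1) = if gconn a (a+b+1) R (glue a ha R1 R2) then 1 else 0 := by
  rw [tri_def, Finsupp.sum_single_index, Finsupp.sum_single_index, Finsupp.sum_single_index]
  · simp only [one_mul]
    split_ifs <;> rfl
  · ring
  · rw [Finsupp.sum_single_index] <;> ring
  · rw [Finsupp.sum_single_index]
    · rw [Finsupp.sum_single_index] <;> ring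
    · rw [Finsupp.sum_single_index] <;> ring

/-- the functional as a linear map in the first argument -/
noncomputable def triL (a b : ℕ) (ha : Odd a) (g h : St →₀ ℂ) : (St →₀ ℂ) →ₗ[ℂ] ℂ :=
  Finsupp.linearCombination ℂ (fun R => Finsupp.linearCombination ℂ (fun R1 =>
      Finsupp.linearCombination ℂ (fun R2 => tri a b ha (Finsupp.single R 1) (Finsupp.single R1 1)
        (Finsupp.single R2 1)) h) g)

theorem triL_apply (f g h : St →₀ ℂ) : triL a b ha g h f = tri a b ha f g h := (tri_lin f g h).symm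

theorem tri_add_left (f f' g h : St →₀ ℂ) :
    tri a b ha (f + f') g h = tri a b ha f g h + tri a b ha f' g h := by
  simp only [← triL_apply, map_add]

theorem tri_smul_left (c : ℂ) (f g h : St →₀ ℂ) :
    tri a b ha (c • f) g h = c * tri a b ha f g h := by
  simp only [← triL_apply, map_smul, smul_eq_mul]

theorem tri_sum (f g h : St →₀ ℂ) : tri a b ha f g h =
    f.sum fun R x => g.sum fun R1 y => h.sum fun R2 z => x * y * z *
      tri a b ha (Finsupp.single R 1) (Finsupp.single R1 1) (Finsupp.single R2 1) := by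
  classical
  rw [tri_def]
  refine Finsupp.sum_congr (fun R _ => Finsupp.sum_congr (fun R1 _ =>
    Finsupp.sum_congr (fun R2 _ => ?_)))
  rw [tri_single]

theorem tri_add_mid (f g g' h : St →₀ ℂ) :
    tri a b ha f (g + g') h = tri a b ha f g h + tri a b ha f g' h := by
  classical
  rw [tri_def, tri_def, tri_def, ← Finsupp.sum_add]
  refine Finsupp.sum_congr (fun R _ => ?_)
  rw [Finsupp.sum_add_index']
  · intro R1; simp
  · intro R1 y z
    rw [← Finsupp.sum_add]
    refine Finsupp.sum_congr (fun R2 _ => ?_)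
    ring

theorem tri_smul_mid (c : ℂ) (f g h : St →₀ ℂ) :
    tri a b ha f (c • g) h = c * tri a b ha f g h := by
  classical
  rw [tri_def, tri_def, Finsupp.mul_sum]
  refine Finsupp.sum_congr (fun R _ => ?_)
  rw [Finsupp.sum_smul_index' (fun R => by simp), Finsupp.mul_sum]
  refine Finsupp.sum_congr (fun R1 _ => ?_)
  rw [Finsupp.mul_sum]
  refine Finsupp.sum_congr (fun R2 _ => ?_)
  simp only [smul_eq_mul]; ring

theorem tri_add_right (f g h h' : St →₀ ℂ) :
    tri a b ha f g (h + h') = tri a b ha f g h + tri a b ha f g h' := by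
  classical
  rw [tri_def, tri_def, tri_def, ← Finsupp.sum_add]
  refine Finsupp.sum_congr (fun R _ => ?_)
  rw [← Finsupp.sum_add]
  refine Finsupp.sum_congr (fun R1 _ => ?_)
  rw [Finsupp.sum_add_index']
  · intro R2; simp
  · intro R2 y z; ring

theorem tri_smul_right (c : ℂ) (f g h : St →₀ ℂ) :
    tri a b ha f g (c • h) = c * tri a b ha f g h := by
  classical
  rw [tri_def, tri_def, Finsupp.mul_sum]
  refine Finsupp.sum_congr (fun R _ => ?_)
  rw [Finsupp.mul_sum]
  refine Finsupp.sum_congr (fun R1 _ => ?_)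
  rw [Finsupp.sum_smul_index' (fun R => by simp), Finsupp.mul_sum]
  refine Finsupp.sum_congr (fun R2 _ => ?_)
  simp only [smul_eq_mul]; ring

/-- general transfer principle: if the indicator of the first functional composed with the maps
equals the one of the second, so do the functionals -/
theorem tri_map_congr {a' b' : ℕ} {ha' : Odd a'} (φ φ' ψ ψ' χ χ' : St → St)
    (H : ∀ R R1 R2, gconn a (a+b+1) (φ R) (glue a ha (ψ R1) (χ R2)) ↔
      gconn a' (a'+b'+1) (φ' R) (glue a' ha' (ψ' R1) (χ' R2))) (f g h : St →₀ ℂ) :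
    tri a b ha (Finsupp.mapDomain φ f) (Finsupp.mapDomain ψ g) (Finsupp.mapDomain χ h) =
      tri a' b' ha' (Finsupp.mapDomain φ' f) (Finsupp.mapDomain ψ' g)
        (Finsupp.mapDomain χ' h) := by
  classical
  induction f using Finsupp.induction_linear with
  | zero => simp [tri_def, Finsupp.mapDomain_zero]
  | add f f' h1 h2 =>
    rw [Finsupp.mapDomain_add, Finsupp.mapDomain_add, tri_add_left, tri_add_left, h1, h2]
  | single R x =>
    induction g using Finsupp.induction_linear with
    | zero => simp [tri_def, Finsupp.mapDomain_zero]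
    | add g g' h1 h2 =>
      rw [Finsupp.mapDomain_add, Finsupp.mapDomain_add, tri_add_mid, tri_add_mid, h1, h2]
    | single R1 y =>
      induction h using Finsupp.induction_linear with
      | zero => simp [tri_def, Finsupp.mapDomain_zero]
      | add h h' h1 h2 =>
        rw [Finsupp.mapDomain_add, Finsupp.mapDomain_add, tri_add_right, tri_add_right, h1, h2]
      | single R2 z =>
        have e : ∀ (R : St) (x : ℂ), Finsupp.single R x = x • Finsupp.single R (1:ℂ) := by
          intro R x; rw [Finsupp.smul_single, smul_eq_mul, mul_one]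
        simp only [Finsupp.mapDomain_single]
        rw [e (φ R) x, e (ψ R1) y, e (χ R2) z, e (φ' R) x, e (ψ' R1) y, e (χ' R2) z]
        simp only [tri_smul_left, tri_smul_mid, tri_smul_right]
        rw [tri_single, tri_single]
        by_cases hc : gconn a (a+b+1) (φ R) (glue a ha (ψ R1) (χ R2))
        · rw [if_pos hc, if_pos ((H R R1 R2).1 hc)]
        · rw [if_neg hc, if_neg (fun k => hc ((H R R1 R2).2 k))]

end Tri

/-! ### moving the ends -/

theorem gconn_left {s s' t : ℕ} {R R' : St} (h : R.rel s s' ∨ R'.rel s s') :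
    gconn s t R R' ↔ gconn s' t R R' := by
  unfold gconn
  constructor
  · intro k
    exact Relation.EqvGen.trans _ _ _ (Relation.EqvGen.symm _ _ (Relation.EqvGen.rel _ _ h)) k
  · intro k
    exact Relation.EqvGen.trans _ _ _ (Relation.EqvGen.rel _ _ h) k

theorem gconn_right {s t t' : ℕ} {R R' : St} (h : R.rel t t' ∨ R'.rel t t') :
    gconn s t R R' ↔ gconn s t' R R' := by
  unfold gconn
  constructor
  · intro k
    exact Relation.EqvGen.trans _ _ _ k (Relation.EqvGen.rel _ _ h)
  · intro k
    exact Relation.EqvGen.trans _ _ _ k (Relation.EqvGen.symm _ _ (Relation.EqvGen.rel _ _ h))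

theorem ins_rel_self {i : ℕ} (hi : i % 2 = 1) (R : St) : (St.ins i R).rel (i+2) i := by
  right
  have e1 : St.low i i = i := by unfold St.low; split_ifs <;> omega
  have e2 : St.low i (i+2) = i := by unfold St.low; split_ifs <;> omega
  exact ⟨by omega, hi, by omega, by omega, by rw [e1, e2]; exact R.eqv.1 _⟩

/-- ends: insertion on the left side -/
theorem gconn_insL {a b i : ℕ} (ha : a % 2 = 1) (hi : i ≤ a) (R R' : St) :
    (gconn (a+2) (a+2+b+1) (St.ins i R) R' ↔ gconn a (a+b+1) R (St.cap i R')) ∧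
    (gconn (a+2) (a+2+b+1) R (St.ins i R') ↔ gconn a (a+b+1) (St.cap i R) R') := by
  have ht : St.up i (a+b+1) = a+2+b+1 := by unfold St.up; split_ifs <;> omega
  rcases Nat.lt_or_ge i a with h | h
  · have hs : St.up i a = a+2 := by unfold St.up; split_ifs <;> omega
    constructor
    · have := gconn_ins_left a (a+b+1) i R R'
      rw [hs, ht] at this; exact this
    · have := gconn_ins_right a (a+b+1) i R R'
      rw [hs, ht] at this; exact this
  · have hia : i = a := by omega
    subst hia
    have hs : St.up i i = i := by unfold St.up; split_ifs <;> omega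
    constructor
    · rw [gconn_left (s' := i) (Or.inl (ins_rel_self ha R))]
      have := gconn_ins_left i (i+b+1) i R R'
      rw [hs, ht] at this; exact this
    · rw [gconn_left (s' := i) (Or.inr (ins_rel_self ha R'))]
      have := gconn_ins_right i (i+b+1) i R R'
      rw [hs, ht] at this; exact this

/-- ends: insertion on the right side -/
theorem gconn_insR {a b i : ℕ} (ha : a % 2 = 1) (hb : b % 2 = 1) (hi : i ≤ b) (R R' : St) :
    (gconn a (a+(b+2)+1) (St.ins (i+(a+1)) R) R' ↔ gconn a (a+b+1) R (St.cap (i+(a+1)) R')) ∧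
    (gconn a (a+(b+2)+1) R (St.ins (i+(a+1)) R') ↔ gconn a (a+b+1) (St.cap (i+(a+1)) R) R') := by
  have hs : St.up (i+(a+1)) a = a := by unfold St.up; split_ifs <;> omega
  rcases Nat.lt_or_ge i b with h | h
  · have ht : St.up (i+(a+1)) (a+b+1) = a+(b+2)+1 := by unfold St.up; split_ifs <;> omega
    constructor
    · have := gconn_ins_left a (a+b+1) (i+(a+1)) R R'
      rw [hs, ht] at this; exact this
    · have := gconn_ins_right a (a+b+1) (i+(a+1)) R R'
      rw [hs, ht] at this; exact this
  · have hia : i = b := by omega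
    subst hia
    have ht : St.up (i+(a+1)) (a+i+1) = i+(a+1) := by unfold St.up; split_ifs <;> omega
    have e : a+(i+2)+1 = i+(a+1)+2 := by omega
    rw [e]
    constructor
    · rw [gconn_right (t' := i+(a+1)) (Or.inl (ins_rel_self (by omega) R))]
      have := gconn_ins_left a (a+i+1) (i+(a+1)) R R'
      rw [hs, ht] at this; exact this
    · rw [gconn_right (t' := i+(a+1)) (Or.inr (ins_rel_self (by omega) R'))]
      have := gconn_ins_right a (a+i+1) (i+(a+1)) R R'
      rw [hs, ht] at this; exact this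

/-! ### adjointness for `tri` -/

section Adj

variable {a b : ℕ} {ha : Odd a}

theorem tri_map_lower {a' b' : ℕ} {ha' : Odd a'} (φ φ' ψ ψ' χ χ' : St → St) (f g h : St →₀ ℂ)
    (H : ∀ R R1 R2, gconn a (a+b+1) (φ R) (glue a ha (ψ R1) (χ R2)) ↔
      gconn a' (a'+b'+1) (φ' R) (glue a' ha' (ψ' R1) (χ' R2))) :
    tri a b ha (Finsupp.mapDomain φ f) (Finsupp.mapDomain ψ g) (Finsupp.mapDomain χ h) =
      tri a' b' ha' (Finsupp.mapDomain φ' f) (Finsupp.mapDomain ψ' g)
        (Finsupp.mapDomain χ' h) := tri_map_congr φ φ' ψ ψ' χ χ' H f g h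

theorem tri_act_left {i : ℕ} (hi : i + 2 ≤ a) (f g h : St →₀ ℂ) :
    tri a b ha (Finsupp.mapDomain (St.act i) f) g h =
      tri a b ha f (Finsupp.mapDomain (St.act i) g) h := by
  have := tri_map_lower (a := a) (b := b) (ha := ha) (a' := a) (b' := b) (ha' := ha)
    (St.act i) id id (St.act i) id id f g h (by
      intro R R1 R2
      simp only [id]
      rw [gconn_act (by omega) (by omega), act_glue_left ha hi])
  simpa only [Finsupp.mapDomain_id] using this

theorem tri_act_right {i : ℕ} (hi : i + 2 ≤ b) (f g h : St →₀ ℂ) :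
    tri a b ha (Finsupp.mapDomain (St.act (i+(a+1))) f) g h =
      tri a b ha f g (Finsupp.mapDomain (St.act i) h) := by
  have := tri_map_lower (a := a) (b := b) (ha := ha) (a' := a) (b' := b) (ha' := ha)
    (St.act (i+(a+1))) id id id id (St.act i) f g h (by
      intro R R1 R2
      simp only [id]
      rw [gconn_act (by omega) (by omega), act_glue_right ha])
  simpa only [Finsupp.mapDomain_id] using this

/-- lower cup on the left side -/
theorem tri_ins_left {ha' : Odd (a+2)} {i : ℕ} (hi : i ≤ a) (f g h : St →₀ ℂ) :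
    tri (a+2) b ha' (Finsupp.mapDomain (St.ins i) f) g h =
      tri a b ha f (Finsupp.mapDomain (St.cap i) g) h := by
  have := tri_map_lower (a := a+2) (b := b) (ha := ha') (a' := a) (b' := b) (ha' := ha)
    (St.ins i) id id (St.cap i) id id f g h (by
      intro R R1 R2
      simp only [id]
      rw [(gconn_insL (Nat.odd_iff.mp ha) hi _ _).1, cap_glue_left ha ha' hi])
  simpa only [Finsupp.mapDomain_id] using this

/-- upper left cup -/
theorem tri_ins_mid {ha' : Odd (a+2)} {i : ℕ} (hi : i ≤ a) (f g h : St →₀ ℂ) :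
    tri (a+2) b ha' f (Finsupp.mapDomain (St.ins i) g) h =
      tri a b ha (Finsupp.mapDomain (St.cap i) f) g h := by
  have := tri_map_lower (a := a+2) (b := b) (ha := ha') (a' := a) (b' := b) (ha' := ha)
    id (St.cap i) (St.ins i) id id id f g h (by
      intro R R1 R2
      simp only [id]
      rw [← ins_glue_left ha ha' hi, (gconn_insL (Nat.odd_iff.mp ha) hi _ _).2])
  simpa only [Finsupp.mapDomain_id] using this

/-- lower cup on the right side -/
theorem tri_ins_lowR {i : ℕ} (hb : Odd b) (hi : i ≤ b) (f g h : St →₀ ℂ) :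
    tri a (b+2) ha (Finsupp.mapDomain (St.ins (i+(a+1))) f) g h =
      tri a b ha f g (Finsupp.mapDomain (St.cap i) h) := by
  have := tri_map_lower (a := a) (b := b+2) (ha := ha) (a' := a) (b' := b) (ha' := ha)
    (St.ins (i+(a+1))) id id id id (St.cap i) f g h (by
      intro R R1 R2
      simp only [id]
      rw [(gconn_insR (Nat.odd_iff.mp ha) (Nat.odd_iff.mp hb) hi _ _).1, cap_glue_right ha])
  simpa only [Finsupp.mapDomain_id] using this

/-- upper right cup -/
theorem tri_ins_right {i : ℕ} (hb : Odd b) (hi : i ≤ b) (f g h : St →₀ ℂ) :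
    tri a (b+2) ha f g (Finsupp.mapDomain (St.ins i) h) =
      tri a b ha (Finsupp.mapDomain (St.cap (i+(a+1))) f) g h := by
  have := tri_map_lower (a := a) (b := b+2) (ha := ha) (a' := a) (b' := b) (ha' := ha)
    id (St.cap (i+(a+1))) id id (St.ins i) id f g h (by
      intro R R1 R2
      simp only [id]
      rw [← ins_glue_right ha, (gconn_insR (Nat.odd_iff.mp ha) (Nat.odd_iff.mp hb) hi _ _).2])
  simpa only [Finsupp.mapDomain_id] using this

end Adj

end Pool.Agent.H988C
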