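import Pool.Agent.H988C.Slide

/-!
The bottom and the top coefficient in `w` of the glued qKZ vectors.
-/

namespace Pool.Agent.H988C

open Pool.Agent.H988R2.Perc Finset

/-! ### the functional on the slid vector -/

section Base

variable {a : ℕ} {ha : Odd a}

theorem ins_zero_bot : St.ins 0 St.bot = St.bot := by
  apply St.ext'
  intro x y
  have hb : ∀ a b : ℕ, St.bot.rel a b ↔ a = b := fun _ _ => Iff.rfl
  simp only [St.ins_rel, hb, St.low]
  split_ifs <;> omega

theorem base_false (R R1 : St) : ¬ gconn a (a+1+1) (St.ins (a+1) R) (glue a ha R1 St.bot) := by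
  intro h
  have key : ∀ x y : ℕ, Relation.EqvGen (fun x y => (St.ins (a+1) R).rel x y ∨
      (glue a ha R1 St.bot).rel x y) x y → (x = a+1+1 ↔ y = a+1+1) := by
    intro x y h
    induction h with
    | rel x y h =>
      rcases h with h | h
      · rcases h with h | ⟨_, _, h3, h4, _⟩
        · rw [h]
        · constructor
          · intro e; exact absurd e h3
          · intro e; exact absurd e h4
      · rcases h with h | ⟨h1, h2, _⟩ | ⟨h1, h2, h3⟩
        · rw [h]
        · constructor <;> intro e <;> omega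
        · have : x - (a+1) = y - (a+1) := h3
          constructor <;> intro e <;> omega
    | refl x => exact Iff.rfl
    | symm x y _ ih => exact ih.symm
    | trans x y z _ _ ih1 ih2 => exact ih1.trans ih2
  have := (key _ _ h).2 rfl
  omega

theorem base_true (R R1 : St) : gconn a (a+1+1) (St.ins a R) (glue a ha R1 St.bot) := by
  have h := ins_rel_self (Nat.odd_iff.mp ha) R
  exact Relation.EqvGen.symm _ _ (Relation.EqvGen.rel _ _ (Or.inl h))

theorem tri_const {b : ℕ} (φ : St → St) (R2 : St) (v : ℂ)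
    (H : ∀ R R1, tri a b ha (Finsupp.single (φ R) 1) (Finsupp.single R1 1)
      (Finsupp.single R2 1) = v) (f g : St →₀ ℂ) :
    tri a b ha (Finsupp.mapDomain φ f) g (Finsupp.single R2 1) = v * mass f * mass g := by
  classical
  induction f using Finsupp.induction_linear with
  | zero => simp [tri_def, Finsupp.mapDomain_zero, mass]
  | add f f' h1 h2 => rw [Finsupp.mapDomain_add, tri_add_left, h1, h2, mass_add]; ring
  | single R x =>
    induction g using Finsupp.induction_linear with
    | zero => simp [tri_def, mass]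
    | add g g' h1 h2 => rw [tri_add_mid, h1, h2, mass_add]; ring
    | single R1 y =>
      have e : ∀ (R : St) (x : ℂ), Finsupp.single R x = x • Finsupp.single R (1:ℂ) := by
        intro R x; rw [Finsupp.smul_single, smul_eq_mul, mul_one]
      rw [Finsupp.mapDomain_single, mass_single, mass_single, e (φ R) x, e R1 y, tri_smul_left,
        tri_smul_mid, H]
      ring

theorem slide_base {c : ℂ} (f g : St →₀ ℂ) :
    tri a 1 ha (Cs c a 1 (Finsupp.mapDomain (St.ins (a+1)) f)) g (Finsupp.single St.bot 1) =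
      -c^2 * mass f * mass g := by
  classical
  have e1 : Cs c a 1 (Finsupp.mapDomain (St.ins (a+1)) f) =
      (-c) • Finsupp.mapDomain (St.ins (a+1)) f + (-c^2) • Finsupp.mapDomain (St.ins a) f := by
    show Cop c a (Finsupp.mapDomain (St.ins (a+1)) f) = _
    unfold Cop
    rw [← Finsupp.mapDomain_comp]
    have : St.act a ∘ St.ins (a+1) = St.ins a := funext (St.act_ins_succ a)
    rw [this]
  rw [e1, tri_add_left, tri_smul_left, tri_smul_left,
    tri_const (a := a) (ha := ha) (b := 1) (St.ins (a+1)) St.bot 0, tri_const (a := a) (ha := ha) (b := 1) (St.ins a) St.bot 1]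
  · ring
  · intro R R1
    rw [tri_single, if_pos (base_true R R1)]
  · intro R R1
    rw [tri_single, if_neg (base_false R R1)]

theorem slide_main {c : ℂ} (hc : c^2 + c + 1 = 0) (n : ℕ) : ∀ (w : Word), Dyck w →
    w.length = 2*n+2 → ∀ f g : St →₀ ℂ,
    tri a (2*n+1) ha (Cs c a (2*n+1) (Finsupp.mapDomain (St.ins (a+(2*n+1))) f)) g
      (Finsupp.single (Phi (n+1) w) 1) = -c^2 * mass f * mass g := by
  induction n with
  | zero =>
    intro w hw hl f g
    have hP : Phi (0+1) w = St.bot := by
      cases hw with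
      | nil => simp at hl
      | ins i w' hi hw' =>
        have hl' : w'.length = 0 := by rw [length_ins] at hl; omega
        have hw0 : w' = [] := List.length_eq_zero_iff.mp hl'
        subst hw0
        have hi0 : i = 0 := by simpa using hi
        subst hi0
        rw [Phi_ins (n := 0) Dyck.nil rfl (by omega)]
        exact ins_zero_bot
    rw [hP]
    exact slide_base f g
  | succ n ih =>
    intro w hw hl f g
    obtain ⟨k, w', hk, hw', hl', rfl⟩ := dyck_arc (n := n) hw (by omega)
    have e1 : Phi (n+1+1) (ins k w') = St.ins k (Phi (n+1) w') :=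
      Phi_ins hw' (by omega) (by omega)
    have e2 : (Finsupp.single (Phi (n+1+1) (ins k w')) 1 : St →₀ ℂ) =
        Finsupp.mapDomain (St.ins k) (Finsupp.single (Phi (n+1) w') 1) := by
      rw [Finsupp.mapDomain_single, e1]
    have e3 : 2*(n+1)+1 = (2*n+1)+2 := by ring
    rw [e2, e3, tri_ins_right (b := 2*n+1) ⟨n, rfl⟩ hk, show k + (a+1) = a+1+k by ring,
      cap_Cs hc k a (2*n+1) hk, ← Finsupp.mapDomain_comp]
    have e4 : St.cap (a+k) ∘ St.ins (a + (2*n+1+2)) = St.ins (a+(2*n+1)) ∘ St.cap (a+k) := by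
      funext R
      show St.cap (a+k) (St.ins (a + (2*n+1+2)) R) = St.ins (a+(2*n+1)) (St.cap (a+k) R)
      rw [cap_ins_right (by omega)]
      rfl
    rw [e4, Finsupp.mapDomain_comp, ih w' hw' hl', mass_mapDomain]

theorem tri_sum_right {b : ℕ} {ι : Type*} (s : Finset ι) (h : ι → St →₀ ℂ) (f g : St →₀ ℂ) :
    tri a b ha f g (∑ i ∈ s, h i) = ∑ i ∈ s, tri a b ha f g (h i) := by
  classical
  induction s using Finset.induction_on with
  | empty => simp [tri_def]
  | insert i s hi ih => rw [Finset.sum_insert hi, Finset.sum_insert hi, tri_add_right, ih]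

theorem slide_Psi {c : ℂ} (hc : c^2 + c + 1 = 0) (b : ℕ) (hb : Odd b) (l : List ℂ)
    (hl : l.length = b + 1) (f g : St →₀ ℂ) :
    tri a b ha (Cs c a b (Finsupp.mapDomain (St.ins (a+b)) f)) g (Psi l) =
      -c^2 * mass f * mass g * mass (Psi l) := by
  obtain ⟨n, rfl⟩ := hb
  rw [Psi_eq (n := n+1) (by omega), tri_sum_right, mass_sum, Finset.mul_sum]
  refine Finset.sum_congr rfl (fun w hw => ?_)
  rw [mem_LP] at hw
  have e : (Finsupp.single (Phi (n+1) w) (Fw w l) : St →₀ ℂ) =
      (Fw w l) • Finsupp.single (Phi (n+1) w) (1:ℂ) := by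
    rw [Finsupp.smul_single, smul_eq_mul, mul_one]
  rw [e, tri_smul_right, slide_main hc n w hw.2 (by omega), mass_smul, mass_single]
  ring

end Base

/-! ### bottom -/

theorem exch0 (u v : List ℂ) (y : ℂ) (hy : y ≠ 0) (h : Even (u.length + v.length)) :
    Psi (u ++ 0 :: y :: v) = Cop q u.length (Psi (u ++ y :: 0 :: v)) := by
  have h1 := Psi_exch u v y 0 h
  have hqy : q * y ≠ 0 := mul_ne_zero q_ne_zero hy
  have h2 : (q * y) • Psi (u ++ 0 :: y :: v) = (q * y) • Cop q u.length (Psi (u ++ y :: 0 :: v)) := by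
    unfold Cop
    rw [smul_add, smul_smul, smul_smul]
    have e1 : q * y - q^2 * 0 = q * y := by ring
    have e2 : q * 0 - q^2 * y = q * y * -q := by ring
    have e3 : 0 - y = q * y * -q^2 := by
      have := q_cube
      linear_combination (-y) * (1 - this)
    rw [e1, e2, e3] at h1
    exact h1
  have h3 := congrArg (fun z => (q * y)⁻¹ • z) h2
  simpa only [smul_smul, inv_mul_cancel₀ hqy, one_smul] using h3

theorem exch0_all (B : List ℂ) (hB : ∀ y ∈ B, y ≠ 0) : ∀ (A : List ℂ),
    Even (A.length + B.length) →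
    Psi (A ++ 0 :: (B ++ [0])) = Cs q A.length B.length (Psi (A ++ B ++ [0, 0])) := by
  induction B with
  | nil => intro A _; simp [Cs]
  | cons y B ih =>
    intro A hE
    have hE' : Even (A.length + (B ++ [0]).length) := by
      simpa [List.length_append] using hE
    have h1 := exch0 A (B ++ [0]) y (hB y (by simp)) hE'
    have h2 := ih (fun z hz => hB z (by simp [hz])) (A ++ [y])
      (by simpa [List.length_append, add_assoc, add_comm 1] using hE)
    rw [List.cons_append, h1]
    have e1 : A ++ y :: 0 :: (B ++ [0]) = A ++ [y] ++ 0 :: (B ++ [0]) := by simp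
    rw [e1, h2]
    have e2 : A ++ [y] ++ B ++ [0, 0] = A ++ y :: B ++ [0, 0] := by simp
    rw [e2]
    simp [Cs]

theorem Psi_zero_zero (u : List ℂ) (h : Even u.length) :
    Psi (u ++ [0, 0]) = fac 0 u • Finsupp.mapDomain (St.ins u.length) (Psi u) := by
  have := Psi_rec u [] 0 (by simpa using h)
  simpa using this

/-- bottom coefficient -/
theorem tri_bottom {a b : ℕ} {ha : Odd a} (hb : Odd b) (A B B' : List ℂ) (hA : A.length = a)
    (hBl : B.length = b) (hBl' : B'.length = b + 1) (hB : ∀ y ∈ B, y ≠ 0) (g : St →₀ ℂ) :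
    tri a b ha (Psi (A ++ 0 :: (B ++ [0]))) g (Psi B') =
      -q^2 * (mass (Psi (A ++ 0 :: (B ++ [0]))) * mass g * mass (Psi B')) := by
  subst hA hBl
  have hE : Even (A.length + B.length) := by
    rcases ha with ⟨i, hi⟩; rcases hb with ⟨j, hj⟩; exact ⟨i+j+1, by omega⟩
  rw [exch0_all B hB A hE, Psi_zero_zero (A ++ B) (by simpa using hE), List.length_append,
    mass_Cs q_spec, mass_smul, mass_mapDomain]
  have e : ∀ (c x : ℂ) (j n : ℕ) (f : St →₀ ℂ), Cs c j n (x • f) = x • Cs c j n f := by
    intro c x j n f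
    induction n generalizing j with
    | zero => rfl
    | succ n ih =>
      rw [Cs, Cs, ih]
      unfold Cop
      rw [Finsupp.mapDomain_smul, smul_add]
      congr 1
      · rw [smul_comm]
      · rw [smul_comm]
  rw [e, tri_smul_left, slide_Psi q_spec B.length hb B' hBl']
  ring

theorem Cop_smul (c x : ℂ) (j : ℕ) (f : St →₀ ℂ) : Cop c j (x • f) = x • Cop c j f := by
  unfold Cop
  rw [Finsupp.mapDomain_smul, smul_add]
  congr 1
  · rw [smul_comm]
  · rw [smul_comm]

theorem Cs_smul (c x : ℂ) (j n : ℕ) (f : St →₀ ℂ) : Cs c j n (x • f) = x • Cs c j n f := by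
  induction n generalizing j with
  | zero => rfl
  | succ n ih => rw [Cs, Cs, ih, Cop_smul]

/-! ### top -/

/-- `(q - q² y W) + (1 - y W) act_j` -/
noncomputable def DL (W y : ℂ) (j : ℕ) : (St →₀ ℂ) →ₗ[ℂ] (St →₀ ℂ) :=
  (q - q^2 * y * W) • LinearMap.id + (1 - y * W) • Finsupp.lmapDomain ℂ ℂ (St.act j)

theorem DL_apply (W y : ℂ) (j : ℕ) (f : St →₀ ℂ) :
    DL W y j f = (q - q^2 * y * W) • f + (1 - y * W) • Finsupp.mapDomain (St.act j) f := rfl

noncomputable def DLs (W : ℂ) : ℕ → List ℂ → ((St →₀ ℂ) →ₗ[ℂ] (St →₀ ℂ))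
  | _, [] => LinearMap.id
  | a, y :: B => (DL W y a).comp (DLs W (a+1) B)

noncomputable def den (W : ℂ) : List ℂ → ℂ
  | [] => 1
  | y :: B => (q * y * W - q^2) * den W B

theorem exchW (u v : List ℂ) (y W : ℂ) (hW : W ≠ 0) (h : Even (u.length + v.length)) :
    (q * y * W - q^2) • Psi (u ++ W⁻¹ :: y :: v) = DL W y u.length (Psi (u ++ y :: W⁻¹ :: v)) := by
  have h1 := Psi_exch u v y W⁻¹ h
  have h2 := congrArg (fun z => W • z) h1
  simp only [smul_add, smul_smul] at h2
  rw [DL_apply]
  have e1 : W * (q * y - q^2 * W⁻¹) = q * y * W - q^2 := by field_simp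
  have e2 : W * (q * W⁻¹ - q^2 * y) = q - q^2 * y * W := by field_simp
  have e3 : W * (W⁻¹ - y) = 1 - y * W := by field_simp
  rw [e1, e2, e3] at h2
  exact h2

theorem exchW_all (W : ℂ) (hW : W ≠ 0) (B : List ℂ) : ∀ (A : List ℂ),
    Even (A.length + B.length) →
    den W B • Psi (A ++ W⁻¹ :: (B ++ [0])) = DLs W A.length B (Psi (A ++ B ++ [W⁻¹, 0])) := by
  induction B with
  | nil => intro A _; simp [DLs, den]
  | cons y B ih =>
    intro A hE
    have hE' : Even (A.length + (B ++ [0]).length) := by
      simpa [List.length_append] using hE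
    have h1 := exchW A (B ++ [0]) y W hW hE'
    have h2 := ih (A ++ [y]) (by simpa [List.length_append, add_assoc, add_comm 1] using hE)
    rw [List.cons_append, den, mul_comm, ← smul_smul, h1, ← map_smul]
    have e1 : A ++ y :: W⁻¹ :: (B ++ [0]) = A ++ [y] ++ W⁻¹ :: (B ++ [0]) := by simp
    rw [e1, h2]
    have e2 : A ++ [y] ++ B ++ [W⁻¹, 0] = A ++ y :: B ++ [W⁻¹, 0] := by simp
    rw [e2]
    simp [DLs]

theorem DLs_cont (B : List ℂ) : ∀ (a : ℕ) (F : (St →₀ ℂ) →ₗ[ℂ] ℂ) (f : St →₀ ℂ),
    Continuous (fun W => F (DLs W a B f)) := by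
  induction B with
  | nil => intro a F f; simpa [DLs] using continuous_const
  | cons y B ih =>
    intro a F f
    have h1 := ih (a+1) F f
    have h2 := ih (a+1) (F.comp (Finsupp.lmapDomain ℂ ℂ (St.act a))) f
    have e : (fun W => F (DLs W a (y :: B) f)) = fun W => (q - q^2 * y * W) * F (DLs W (a+1) B f) +
        (1 - y * W) * (F.comp (Finsupp.lmapDomain ℂ ℂ (St.act a))) (DLs W (a+1) B f) := by
      funext W
      simp only [DLs, LinearMap.comp_apply, DL_apply, map_add, map_smul, smul_eq_mul]
      rfl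
    rw [e]
    exact ((by fun_prop : Continuous fun W : ℂ => q - q^2 * y * W).mul h1).add
      ((by fun_prop : Continuous fun W : ℂ => 1 - y * W).mul h2)

theorem DLs_zero (B : List ℂ) : ∀ (a : ℕ) (f : St →₀ ℂ),
    DLs 0 a B f = (-q^2)^B.length • Cs (q^2) a B.length f := by
  induction B with
  | nil => intro a f; simp [DLs, Cs]
  | cons y B ih =>
    intro a f
    have h3 := q_cube
    rw [DLs, LinearMap.comp_apply, ih, DL_apply, List.length_cons, Cs, Cop, pow_succ,
      Finsupp.mapDomain_smul, smul_add, smul_smul, smul_smul, smul_smul, smul_smul]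
    congr 2
    · linear_combination (-(-q^2)^B.length * q) * h3
    · linear_combination (-(-q^2)^B.length * (q^3 + 1)) * h3

theorem den_zero (B : List ℂ) : den 0 B = (-q^2)^B.length := by
  induction B with
  | nil => rfl
  | cons y B ih => rw [den, ih, List.length_cons, pow_succ]; ring

theorem q_sq_spec : (q^2)^2 + q^2 + 1 = 0 := by
  have h := q_spec
  have h3 := q_cube
  linear_combination h + q * h3

open Polynomial in
/-- top coefficient of a linear functional of the vector -/
theorem top_gen (F : (St →₀ ℂ) →ₗ[ℂ] ℂ) (A B : List ℂ) (hE : Even (A.length + B.length))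
    (p : ℂ[X]) (hp : p.natDegree ≤ A.length + B.length)
    (hpe : ∀ W, F (Psi (A ++ W :: (B ++ [0]))) = p.eval W) :
    p.coeff (A.length + B.length) =
      F (Cs (q^2) A.length B.length (Psi (A ++ B ++ [0, 0]))) := by
  set N := A.length + B.length with hN
  have hlen : (A ++ B).length = N := by simp [hN]
  have key : ∀ W : ℂ, W ≠ 0 → den W B * (p.reflect N).eval W =
      F (DLs W A.length B (Psi (A ++ B ++ [W, 0]))) := by
    intro W hW
    have h1 := exchW_all W hW B A hE
    have h2 := Psi_inv0 W (A ++ B) hW (by rw [hlen]; exact hE)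
    rw [hlen] at h2
    have h3 : (p.reflect N).eval W = W^N * p.eval W⁻¹ := by
      have hu : (p.reflect N).eval W * (W⁻¹)^N = p.eval W⁻¹ := by
        have inst : Invertible (W⁻¹) := invertibleOfNonzero (inv_ne_zero hW)
        have := Polynomial.eval₂_reflect_mul_pow (RingHom.id ℂ) W⁻¹ N p hp
        rw [invOf_eq_inv, inv_inv] at this
        simpa [Polynomial.eval₂_eq_eval_map] using this
      rw [← hu, mul_comm (W^N), mul_assoc, ← mul_pow, inv_mul_cancel₀ hW, one_pow, mul_one]
    rw [h3, ← hpe, ← mul_assoc, mul_comm (den W B), mul_assoc, ← smul_eq_mul (den W B),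
      ← map_smul, h1, ← smul_eq_mul, ← map_smul, ← map_smul, ← h2]
  have hcont : Continuous (fun W => F (DLs W A.length B (Psi (A ++ B ++ [W, 0])))) := by
    have hl : ∀ W : ℂ, (A ++ B ++ [W, 0]).length = 2 * ((N+2)/2) := by
      intro W
      obtain ⟨k, hk⟩ := hE
      simp only [List.length_append, List.length_cons, List.length_nil]
      omega
    have e : (fun W => F (DLs W A.length B (Psi (A ++ B ++ [W, 0])))) = fun W =>
        ∑ w ∈ LP (2 * ((N+2)/2)), Fw w (A ++ B ++ [W, 0]) *
          F (DLs W A.length B (Finsupp.single (Phi ((N+2)/2) w) 1)) := by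
      funext W
      rw [Psi_eq (hl W), map_sum, map_sum]
      refine Finset.sum_congr rfl (fun w _ => ?_)
      have e : (Finsupp.single (Phi ((N+2)/2) w) (Fw w (A ++ B ++ [W, 0])) : St →₀ ℂ) =
          (Fw w (A ++ B ++ [W, 0])) • Finsupp.single (Phi ((N+2)/2) w) (1:ℂ) := by
        rw [Finsupp.smul_single, smul_eq_mul, mul_one]
      rw [e, map_smul, map_smul, smul_eq_mul]
    rw [e]
    refine continuous_finsetSum _ (fun w hw => ?_)
    refine Continuous.mul ?_ (DLs_cont B _ F _)
    obtain ⟨P, _, hP⟩ := (Fw_V hw).pd.univ (A ++ B) [0] (by have := hl 0; simp at this ⊢; omega)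
    have e2 : (fun W => Fw w (A ++ B ++ [W, 0])) = fun W => P.eval W := by
      funext W; exact hP W
    rw [e2]
    exact P.continuous
  have hcont2 : Continuous (fun W => den W B * (p.reflect N).eval W) := by
    have hd : ∀ B : List ℂ, Continuous (fun W => den W B) := by
      intro B
      induction B with
      | nil => exact continuous_const
      | cons y B ih => simp only [den]; fun_prop
    exact (hd B).mul (p.reflect N).continuous
  have hfin : den 0 B * (p.reflect N).eval 0 = F (DLs 0 A.length B (Psi (A ++ B ++ [0, 0]))) := by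
    have h1 := (hcont2.tendsto 0).mono_left (nhdsWithin_le_nhds (s := {0}ᶜ))
    have h2 := (hcont.tendsto 0).mono_left (nhdsWithin_le_nhds (s := {0}ᶜ))
    have h3 : Filter.Tendsto (fun W => den W B * (p.reflect N).eval W) (nhdsWithin 0 {0}ᶜ)
        (nhds (F (DLs 0 A.length B (Psi (A ++ B ++ [0, 0]))))) := by
      refine h2.congr' ?_
      filter_upwards [self_mem_nhdsWithin] with W hW
      exact (key W hW).symm
    exact tendsto_nhds_unique h1 h3
  rw [DLs_zero, den_zero, map_smul, smul_eq_mul] at hfin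
  have hne : (-q^2)^B.length ≠ 0 := pow_ne_zero _ (neg_ne_zero.mpr (pow_ne_zero _ q_ne_zero))
  have h4 := mul_left_cancel₀ hne hfin
  rw [← h4, ← Polynomial.coeff_zero_eq_eval_zero, Polynomial.coeff_reflect]
  congr 1
/-- the mass as a linear map -/
noncomputable def massL : (St →₀ ℂ) →ₗ[ℂ] ℂ := Finsupp.linearCombination ℂ (fun _ => (1:ℂ))

theorem massL_apply (f : St →₀ ℂ) : massL f = mass f := by
  unfold massL mass
  rw [Finsupp.linearCombination_apply]
  refine Finsupp.sum_congr (fun R _ => ?_)
  simp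

open Polynomial in
/-- top coefficient -/
theorem tri_top {a b : ℕ} {ha : Odd a} (hb : Odd b) (A B B' : List ℂ) (hA : A.length = a)
    (hBl : B.length = b) (hBl' : B'.length = b + 1) (g : St →₀ ℂ) (p t : ℂ[X])
    (hp : p.natDegree ≤ a + b) (ht : t.natDegree ≤ a + b)
    (hpe : ∀ W, tri a b ha (Psi (A ++ W :: (B ++ [0]))) g (Psi B') = p.eval W)
    (hte : ∀ W, mass (Psi (A ++ W :: (B ++ [0]))) * mass g * mass (Psi B') = t.eval W) :
    p.coeff (a + b) = -q * t.coeff (a + b) := by
  subst hA hBl
  have hE : Even (A.length + B.length) := by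
    rcases ha with ⟨i, hi⟩; rcases hb with ⟨j, hj⟩; exact ⟨i+j+1, by omega⟩
  have h1 := top_gen (triL A.length B.length ha g (Psi B')) A B hE p hp
    (fun W => by rw [triL_apply]; exact hpe W)
  have h2 := top_gen ((mass g * mass (Psi B')) • massL) A B hE t ht
    (fun W => by
      rw [LinearMap.smul_apply, massL_apply, smul_eq_mul, ← hte W]; ring)
  rw [h1, h2, triL_apply, LinearMap.smul_apply, massL_apply, smul_eq_mul,
    Psi_zero_zero (A ++ B) (by simpa using hE), List.length_append, Cs_smul, tri_smul_left,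
    slide_Psi q_sq_spec B.length hb B' hBl', mass_smul, mass_Cs q_sq_spec, mass_mapDomain]
  have h3 := q_cube
  linear_combination (-(fac 0 (A ++ B)) * mass (Psi (A ++ B)) * mass g * mass (Psi B') * q) * h3

end Pool.Agent.H988C
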