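import Pool.Agent.H190R3.Cardy.Fin1
import Pool.Agent.H988C.BT31
import Pool.Agent.H31C.B492
import Pool.Agent.H492C.W1
import Pool.Agent.H492C.G4
import Pool.Agent.H492C.G6
import Pool.Agent.H136R2.Cardy.One136
import Pool.Agent.H980R3.Slit.All
import Pool.Agent.H757R2.CardySD

/-!
Exact discrete Cardy formula: bottom and top coefficients plugged in.
-/

namespace Pool.Agent.H988C

open Pool.Agent.H988R2.Perc hiding X
open Polynomial

theorem bottom492 (A B : List ℂ) (hA : Odd A.length) (hB : Odd B.length)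
    (h0 : ∀ z ∈ A ++ B, z ≠ 0) : H492C.GR A 0 B = - q^2 * H492C.TT A 0 B := by
  rw [H31C.GR_eq492 A B 0 hA, H31C.TT_eq492]
  exact GR31_bottom A B hA hB (fun y hy => h0 y (List.mem_append_right _ hy))

theorem top492 (A B : List ℂ) (hA : Odd A.length) (hB : Odd B.length)
    (_h0 : ∀ z ∈ A ++ B, z ≠ 0) :
    H492C.cw (A.length + B.length) (A.length + B.length) (fun w => H492C.GR A w B) =
      - q * H492C.cw (A.length + B.length) (A.length + B.length) (fun w => H492C.TT A w B) := by
  obtain ⟨p, hp, hpe⟩ := H492C.GR_poly_w A B hA hB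
  obtain ⟨t, ht, hte⟩ := H492C.TT_poly_w A B hA hB
  have e1 : (fun w => H492C.GR A w B) = fun w => p.eval w := funext hpe
  have e2 : (fun w => H492C.TT A w B) = fun w => t.eval w := funext hte
  rw [e1, e2, H492C.cw_eq _ _ p hp, H492C.cw_eq _ _ t ht]
  exact GR31_top A B hA hB p t hp ht (fun W => by rw [← H31C.GR_eq492 A B W hA]; exact hpe W)
    (fun W => by rw [← H31C.TT_eq492]; exact hte W)

theorem s_fin : H31C.S_FIN := Pool.Agent.H190R3.CardyFin.fin_of2 bottom492 top492

theorem s_exact : H31C.S_Exact :=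
  H31C.exact_of2 s_fin Pool.Agent.H136R2.Cardy.s_136 Pool.Agent.H980R3.Slit.s_C
    Pool.Agent.H980R3.Slit.s_T

end Pool.Agent.H988C
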