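import Pool.Agent.H988C.Adj
import Pool.Agent.H988R2.Perc.T13
import Pool.Agent.H988R2.Perc.T14

/-!
The sliding lemma: a strand over the upper right block.
-/

namespace Pool.Agent.H988C

open Pool.Agent.H988R2.Perc

/-! ### commutation on states -/

theorem cap_self_act (i : ℕ) (R : St) : St.cap i (St.act i R) = St.cap i R := by
  apply St.ins_inj i
  rw [← St.act_eq, ← St.act_eq, St.act_act]

theorem cap_succ_act (i : ℕ) (R : St) : St.cap (i+1) (St.act i R) = St.cap i R := by
  apply St.ins_inj (i+1)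
  rw [← St.act_eq, St.act_eq i R, St.act_succ_ins]

theorem cap_act_succ (i : ℕ) (R : St) : St.cap i (St.act (i+1) R) = St.cap (i+1) R := by
  apply St.ins_inj i
  rw [← St.act_eq, St.act_eq (i+1) R, St.act_ins_succ]

theorem gconn_bot (x y : ℕ) (R : St) : gconn x y R St.bot ↔ R.rel x y := by
  constructor
  · intro h
    unfold gconn at h
    induction h with
    | rel x y h =>
      rcases h with h | h
      · exact h
      · have : x = y := h
        subst this; exact R.eqv.1 _
    | refl x => exact R.eqv.1 _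
    | symm x y _ ih => exact R.eqv.2 ih
    | trans x y z _ _ ih1 ih2 => exact R.eqv.3 ih1 ih2
  · intro h
    exact Relation.EqvGen.rel _ _ (Or.inl h)

theorem act_rel_self (i y : ℕ) (R : St) : (St.act i R).rel (i+1) y ↔ y = i+1 := by
  constructor
  · rintro (h | ⟨_, _, h, _⟩)
    · exact h.symm
    · exact absurd rfl h
  · rintro rfl; exact (St.act i R).eqv.1 _

theorem act_rel_iso {i k : ℕ} (R : St) (hk : k ≠ i) (hk' : k ≠ i+2) (h : ∀ y, R.rel k y → y = k)
    (y : ℕ) : (St.act i R).rel k y ↔ y = k := by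
  constructor
  · rintro (h1 | ⟨_, _, _, _, h1 | ⟨h1, _⟩ | ⟨h1, _⟩⟩)
    · exact h1.symm
    · exact h y h1
    · exact absurd (h _ h1).symm hk
    · exact absurd (h _ h1).symm hk'
  · rintro rfl; exact (St.act i R).eqv.1 _

theorem act_bot_rel (i x y : ℕ) : (St.act i St.bot).rel x y ↔
    x = y ∨ (i % 2 = 1 ∧ ((x = i ∧ y = i+2) ∨ (x = i+2 ∧ y = i))) := by
  have hb : ∀ a b : ℕ, St.bot.rel a b ↔ a = b := fun _ _ => Iff.rfl
  simp only [St.act_rel, hb]
  omega

theorem act_comm_bot {i j : ℕ} (h : i + 2 ≤ j) :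
    St.act i (St.act j St.bot) = St.act j (St.act i St.bot) := by
  apply St.ext'
  intro x y
  rw [St.act_rel i (St.act j St.bot), St.act_rel j (St.act i St.bot)]
  simp only [act_bot_rel]
  by_cases hxy : x = y
  · simp [hxy]
  by_cases hi : i % 2 = 1
  · by_cases hj : j % 2 = 1
    · simp only [hi, hj, hxy, true_and, false_or]
      by_cases hx : x % 2 = 1
      · by_cases hy : y % 2 = 1
        · have n1 : x ≠ i + 1 := by omega
          have n2 : x ≠ j + 1 := by omega
          have n3 : y ≠ i + 1 := by omega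
          have n4 : y ≠ j + 1 := by omega
          simp only [hx, hy, n1, n2, n3, n4, true_and, ne_eq, not_false_eq_true]
          clear hx hy n1 n2 n3 n4
          by_cases e : j = i + 2
          · subst e; grind
          · grind
        · simp [hy]
      · simp [hx]
    · simp only [hi, hj, hxy, true_and, false_and, or_false, false_or]
      grind
  · by_cases hj : j % 2 = 1
    · simp only [hi, hj, hxy, true_and, false_and, or_false, false_or]
      grind
    · simp only [hi, hj, hxy, true_and, false_and, or_false, false_or]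
      grind
theorem act_comm {i j : ℕ} (h : i + 2 ≤ j) (R : St) :
    St.act i (St.act j R) = St.act j (St.act i R) := by
  apply St.ext'
  intro x y
  have s1 : ∀ {x y : ℕ} (S : St), S.rel x y ↔ S.rel y x := fun S => ⟨S.eqv.2, S.eqv.2⟩
  have i1 : ∀ y, (St.act i (St.act j R)).rel (i+1) y ↔ y = i+1 := fun y => act_rel_self i y _
  have i2 : ∀ y, (St.act j (St.act i R)).rel (i+1) y ↔ y = i+1 := fun y =>
    act_rel_iso _ (by omega) (by omega) (fun y hy => (act_rel_self i y R).1 hy) y
  have j1 : ∀ y, (St.act j (St.act i R)).rel (j+1) y ↔ y = j+1 := fun y => act_rel_self j y _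
  have j2 : ∀ y, (St.act i (St.act j R)).rel (j+1) y ↔ y = j+1 := fun y =>
    act_rel_iso _ (by omega) (by omega) (fun y hy => (act_rel_self j y R).1 hy) y
  by_cases hx : x = i+1
  · subst hx; rw [i1, i2]
  by_cases hx2 : x = j+1
  · subst hx2; rw [j1, j2]
  by_cases hy : y = i+1
  · subst hy; rw [s1, i1, s1, i2]
  by_cases hy2 : y = j+1
  · subst hy2; rw [s1, j2, s1, j1]
  rw [← gconn_bot, ← gconn_bot, gconn_act hx hy, gconn_act hx2 hy2, gconn_act hx2 hy2,
    gconn_act hx hy, act_comm_bot h]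

theorem cap_act_left {i j : ℕ} (h : i + 2 ≤ j) (R : St) :
    St.cap j (St.act i R) = St.act i (St.cap j R) := by
  apply St.ins_inj j
  rw [← St.act_eq, ← St.act_ins_right h, ← St.act_eq, act_comm h]

theorem cap_act_right {i j : ℕ} (h : i + 2 ≤ j) (R : St) :
    St.cap i (St.act j R) = St.act (j-2) (St.cap i R) := by
  apply St.ins_inj i
  rw [← St.act_eq, ← St.act_ins_left h, ← St.act_eq, act_comm h]

theorem cap_ins_right {i j : ℕ} (h : i + 2 ≤ j) (R : St) :
    St.cap i (St.ins j R) = St.ins (j-2) (St.cap i R) := by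
  apply St.ins_inj i
  have e : j - 2 + 2 = j := by omega
  rw [← St.act_eq, St.ins_ins (by omega : i ≤ j - 2), e, ← St.act_eq, St.act_ins_right h]

/-! ### the operators -/

/-- `C_j = -c - c² act_j` -/
noncomputable def Cop (c : ℂ) (j : ℕ) (f : St →₀ ℂ) : St →₀ ℂ :=
  (-c) • f + (-c^2) • Finsupp.mapDomain (St.act j) f

/-- `C_a C_{a+1} … C_{a+n-1}` -/
noncomputable def Cs (c : ℂ) : ℕ → ℕ → (St →₀ ℂ) → (St →₀ ℂ)
  | _, 0, f => f
  | a, n+1, f => Cop c a (Cs c (a+1) n f)

theorem mass_Cop {c : ℂ} (hc : c^2 + c + 1 = 0) (j : ℕ) (f : St →₀ ℂ) :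
    mass (Cop c j f) = mass f := by
  unfold Cop
  rw [mass_add, mass_smul, mass_smul, mass_mapDomain]
  linear_combination (-(mass f)) * hc

theorem mass_Cs {c : ℂ} (hc : c^2 + c + 1 = 0) (a n : ℕ) (f : St →₀ ℂ) :
    mass (Cs c a n f) = mass f := by
  induction n generalizing a with
  | zero => rfl
  | succ n ih => rw [Cs, mass_Cop hc, ih]

theorem mapDomain_Cop_comm {φ : St → St} {c : ℂ} {i j : ℕ}
    (h : ∀ R, φ (St.act i R) = St.act j (φ R)) (f : St →₀ ℂ) :
    Finsupp.mapDomain φ (Cop c i f) = Cop c j (Finsupp.mapDomain φ f) := by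
  unfold Cop
  rw [Finsupp.mapDomain_add, Finsupp.mapDomain_smul, Finsupp.mapDomain_smul,
    ← Finsupp.mapDomain_comp, ← Finsupp.mapDomain_comp]
  have : φ ∘ St.act i = St.act j ∘ φ := funext h
  rw [this]

/-- Reidemeister move -/
theorem cap_Cop_Cop {c : ℂ} (hc : c^2 + c + 1 = 0) (j : ℕ) (f : St →₀ ℂ) :
    Finsupp.mapDomain (St.cap (j+1)) (Cop c j (Cop c (j+1) f)) =
      Finsupp.mapDomain (St.cap j) f := by
  have hc3 : c^3 = 1 := by linear_combination (c - 1) * hc
  unfold Cop
  simp only [Finsupp.mapDomain_add, Finsupp.mapDomain_smul, ← Finsupp.mapDomain_comp, smul_add,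
    smul_smul]
  have e1 : St.cap (j+1) ∘ St.act (j+1) = St.cap (j+1) := funext (cap_self_act (j+1))
  have e2 : St.cap (j+1) ∘ St.act j = St.cap j := funext (cap_succ_act j)
  have e3 : St.cap (j+1) ∘ (St.act j ∘ St.act (j+1)) = St.cap (j+1) := by
    funext R
    simp only [Function.comp]
    rw [cap_succ_act, cap_act_succ]
  rw [e1, e2, e3]
  have h4 : c^4 = c := by linear_combination c * hc3
  have r1 : -c * -c + (-c * -c^2 + -c^2 * -c^2) = 0 := by
    linear_combination hc + hc3 + h4
  have r2 : -c^2 * -c = 1 := by linear_combination hc3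
  rw [r2, one_smul]
  have : ∀ x y : St →₀ ℂ, (-c * -c) • x + (-c * -c^2) • x + (y + (-c^2 * -c^2) • x) =
      y + (-c * -c + (-c * -c^2 + -c^2 * -c^2)) • x := by
    intro x y
    rw [add_smul, add_smul]; abel
  rw [this, r1, zero_smul, add_zero]

theorem cap_Cs_right {c : ℂ} (i a n : ℕ) (hi : i ≤ a) (f : St →₀ ℂ) :
    Finsupp.mapDomain (St.cap i) (Cs c (a+2) n f) = Cs c a n (Finsupp.mapDomain (St.cap i) f) := by
  induction n generalizing a with
  | zero => rfl
  | succ n ih =>
    rw [Cs, Cs, mapDomain_Cop_comm (j := a) (fun R => ?_)]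
    · rw [show a + 2 + 1 = (a+1) + 2 by ring, ih (a+1) (by omega)]
    · rw [cap_act_right (by omega)]; rfl

/-- sliding a cap through the strand -/
theorem cap_Cs {c : ℂ} (hc : c^2 + c + 1 = 0) (k : ℕ) : ∀ (a n : ℕ), k ≤ n → ∀ f : St →₀ ℂ,
    Finsupp.mapDomain (St.cap (a+1+k)) (Cs c a (n+2) f) =
      Cs c a n (Finsupp.mapDomain (St.cap (a+k)) f) := by
  induction k with
  | zero =>
    intro a n _ f
    rw [Cs, Cs, add_zero, cap_Cop_Cop hc, show a+1+1 = a+2 by ring, cap_Cs_right a a n le_rfl]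
    rfl
  | succ k ih =>
    intro a n hn f
    obtain ⟨n, rfl⟩ : ∃ n', n = n' + 1 := ⟨n-1, by omega⟩
    rw [Cs, mapDomain_Cop_comm (j := a) (fun R => cap_act_left (by omega) R)]
    have := ih (a+1) n (by omega) f
    rw [show a + 1 + 1 + k = a + 1 + (k+1) by ring] at this
    rw [this, Cs, show a + 1 + k = a + (k+1) by ring]

/-! ### the functional -/

theorem dyck_arc {n : ℕ} {w : Word} (hw : Dyck w) (hl : w.length = 2*n+4) :
    ∃ k w', k ≤ 2*n+1 ∧ Dyck w' ∧ w'.length = 2*n+2 ∧ w = ins k w' := by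
  cases hw with
  | nil => simp at hl
  | ins i w' hi hw' =>
    have hl' : w'.length = 2*n+2 := by rw [length_ins] at hl; omega
    by_cases h : i ≤ 2*n+1
    · exact ⟨i, w', h, hw', hl', rfl⟩
    · have hi' : i = 2*n+2 := by omega
      cases hw' with
      | nil => simp at hl'
      | ins j w'' hj hw'' =>
        have hl'' : w''.length = 2*n := by rw [length_ins] at hl'; omega
        refine ⟨j, ins (2*n) w'', by omega, Dyck.ins _ _ (by omega) hw'', by rw [length_ins]; omega, ?_⟩
        rw [ins_ins (i := j) (j := 2*n) (by omega) (by omega), hi']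

end Pool.Agent.H988C
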