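import Pool.Agent.H988C.Defs
import Pool.Agent.H988R2.Perc.T20
import Pool.Agent.H988R2.Perc.T22
import Pool.Agent.H988R2.Perc.T23
import Pool.Agent.H988R2.Perc.T24

/-! Stubs for the percolation part (C) of the slit strip.  Each block is one task. -/

namespace Pool.Agent.H988C

open Pool.Agent.H988R2.Perc MeasureTheory Filter Topology Finset

/-- adjacency in the window `-2M ≤ r < 2M` of the slit strip, coordinates (column, time): the tiles
`i = a+1`, `r ≥ 0` are removed. -/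
def SGAdj (a b M : ℕ) (ω : Conf) (x y : ℤ × ℤ) : Prop :=
  ∃ i r : ℤ, 1 ≤ i ∧ i ≤ a+b+1 ∧ -(2 * (M : ℤ)) ≤ r ∧ r < 2 * M ∧ ¬ (i = a+1 ∧ 0 ≤ r) ∧
    ω (edgeOf i r) = true ∧
    (((i + r) % 2 = 1 ∧ x = (i, r) ∧ y = (i-1, r+1)) ∨
     ((i + r) % 2 = 0 ∧ x = (i-1, r) ∧ y = (i, r+1)))

/-- wired points: the left side of the slit (column `a`, times `≥ 0`) and the right wall -/
def SWired (a b : ℕ) (x y : ℤ × ℤ) : Prop :=
  (x.1 = a ∧ 0 ≤ x.2 ∧ y.1 = a ∧ 0 ≤ y.2) ∨ (x.1 = a+b+1 ∧ y.1 = a+b+1)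

/-! ### task C1 (adapt `win_iff`, `T22.past_iff`, `T22.future_iff` of T22) -/

theorem swin_iff (a b : ℕ) (ha : Odd a) (hb : Odd b) (M : ℕ) (ω : Conf) :
    ω ∈ SWin a b ha M ↔
      Relation.EqvGen (fun x y => SGAdj a b M ω x y ∨ SWired a b x y)
        ((a : ℤ), 0) ((a : ℤ) + b + 1, 0) := by
  sorry

/-! ### task C2 (adapt `win_mono`, `iUnion_win` of T22; uses `swin_iff`) -/

theorem swin_mono (a b : ℕ) (ha : Odd a) (hb : Odd b) : Monotone (SWin a b ha) := by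
  sorry

theorem iUnion_swin (a b : ℕ) (ha : Odd a) (hb : Odd b) : ⋃ M, SWin a b ha M = SCross a b := by
  sorry

/-! ### task C3 (adapt T23) -/

theorem measurableSet_swin (a b : ℕ) (ha : Odd a) (M : ℕ) : MeasurableSet (SWin a b ha M) := by
  sorry

theorem perc_swin (a b : ℕ) (ha : Odd a) (M : ℕ) :
    ((perc.real (SWin a b ha M) : ℝ) : ℂ) = tri a b ha (law (a+b+1) M) (law a M) (law b M) := by
  sorry

/-! ### task C4 (adapt `pair_law_tendsto` and the end of T24) -/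

theorem tri_add_left (a b : ℕ) (ha : Odd a) (f f' g h : St →₀ ℂ) :
    tri a b ha (f + f') g h = tri a b ha f g h + tri a b ha f' g h := by
  sorry

theorem tri_add_mid (a b : ℕ) (ha : Odd a) (f g g' h : St →₀ ℂ) :
    tri a b ha f (g + g') h = tri a b ha f g h + tri a b ha f g' h := by
  sorry

theorem tri_add_right (a b : ℕ) (ha : Odd a) (f g h h' : St →₀ ℂ) :
    tri a b ha f g (h + h') = tri a b ha f g h + tri a b ha f g h' := by
  sorry

theorem tri_smul_left (a b : ℕ) (ha : Odd a) (c : ℂ) (f g h : St →₀ ℂ) :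
    tri a b ha (c • f) g h = c * tri a b ha f g h := by
  sorry

theorem tri_smul_mid (a b : ℕ) (ha : Odd a) (c : ℂ) (f g h : St →₀ ℂ) :
    tri a b ha f (c • g) h = c * tri a b ha f g h := by
  sorry

theorem tri_smul_right (a b : ℕ) (ha : Odd a) (c : ℂ) (f g h : St →₀ ℂ) :
    tri a b ha f g (c • h) = c * tri a b ha f g h := by
  sorry

theorem tri_law_tendsto (a b : ℕ) (ha : Odd a) (hb : Odd b) (u v w : St →₀ ℂ)
    (hu : Tvec (a+b+1) u = u) (hv : Tvec a v = v) (hw : Tvec b w = w)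
    (su : ∀ R ∈ u.support, ∀ x y, R.rel x y → x = y ∨ (x < a+b+1 + 1 ∧ y < a+b+1 + 1))
    (sv : ∀ R ∈ v.support, ∀ x y, R.rel x y → x = y ∨ (x < a + 1 ∧ y < a + 1))
    (sw : ∀ R ∈ w.support, ∀ x y, R.rel x y → x = y ∨ (x < b + 1 ∧ y < b + 1))
    (mu : mass u ≠ 0) (mv : mass v ≠ 0) (mw : mass w ≠ 0) :
    Tendsto (fun M => tri a b ha (law (a+b+1) M) (law a M) (law b M)) atTop
      (𝓝 (tri a b ha u v w / (mass u * mass v * mass w))) := by
  sorry

/-! ### task C5 (assembly, as `arm_prob` in T26) -/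

theorem scross_prob (a b : ℕ) (ha : Odd a) (hb : Odd b) :
    ((perc.real (SCross a b) : ℝ) : ℂ) = tri a b ha (Psi1 (a+b+1)) (Psi1 a) (Psi1 b) /
      (mass (Psi1 (a+b+1)) * mass (Psi1 a) * mass (Psi1 b)) := by
  sorry

/-! ### task C6: adjointness (for part A2) -/

theorem gconn_act {s t i : ℕ} (hs : i + 1 ≠ s) (ht : i + 1 ≠ t) (R R' : St) :
    gconn s t (St.act i R) R' ↔ gconn s t R (St.act i R') := by
  sorry

theorem act_glue_left {a i : ℕ} (ha : Odd a) (hi : i + 2 ≤ a) (R1 R2 : St) :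
    St.act i (glue a ha R1 R2) = glue a ha (St.act i R1) R2 := by
  sorry

theorem act_glue_right {a i : ℕ} (ha : Odd a) (R1 R2 : St) :
    St.act (i + (a+1)) (glue a ha R1 R2) = glue a ha R1 (St.act i R2) := by
  sorry

theorem tri_act_left (a b : ℕ) (ha : Odd a) {i : ℕ} (hi : i + 2 ≤ a) (f g h : St →₀ ℂ) :
    tri a b ha (Finsupp.mapDomain (St.act i) f) g h =
      tri a b ha f (Finsupp.mapDomain (St.act i) g) h := by
  sorry

theorem tri_act_right (a b : ℕ) (ha : Odd a) {i : ℕ} (hi : i + 2 ≤ b) (f g h : St →₀ ℂ) :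
    tri a b ha (Finsupp.mapDomain (St.act (i + (a+1))) f) g h =
      tri a b ha f g (Finsupp.mapDomain (St.act i) h) := by
  sorry

end Pool.Agent.H988C
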